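import Mathlib

/-!
Definitions for the statement on Kalai's conjecture for free tight trees.
-/

set_option autoImplicit false

open Finset

namespace Pool.Agent.W689.Ka

/-- `e 0, …, e (t-1)` is a proper ordering of a tight `r`-tree: all edges have `r` vertices, and
every edge but the first one has a vertex which is in no earlier edge, its other vertices being
contained in one earlier edge. -/
def TightTree (r t : ℕ) (e : ℕ → Finset ℕ) : Prop :=
  (∀ i, i < t → (e i).card = r) ∧
  (∀ i, 0 < i → i < t → ∃ v ∈ e i, (∀ j, j < i → v ∉ e j) ∧ ∃ j, j < i ∧ e i \ {v} ⊆ e j)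

/-- The interior facets of the tree: sets of size `r - 1` which are the intersection of two
edges. -/
def ridges (r t : ℕ) (e : ℕ → Finset ℕ) : Finset (Finset ℕ) :=
  (((range t) ×ˢ (range t)).filter
    (fun q => q.1 ≠ q.2 ∧ (e q.1 ∩ e q.2).card = r - 1)).image (fun q => e q.1 ∩ e q.2)

/-- No vertex is opposite to two different interior facets: for each vertex `x` there is at most one
edge `e i ∋ x` such that `e i \ {x}` is contained in an edge not containing `x`. -/
def Free (t : ℕ) (e : ℕ → Finset ℕ) : Prop :=
  ∀ x i j k l, i < t → j < t → k < t → l < t →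
    x ∈ e i → x ∉ e j → (e i).erase x ⊆ e j →
    x ∈ e k → x ∉ e l → (e k).erase x ⊆ e l → i = k

/-- A copy of the tree `e 0, …, e (t-1)` in `G` (same as in the frozen statement). -/
def Copy {α : Type*} [DecidableEq α] (t : ℕ) (e : ℕ → Finset ℕ) (G : Finset (Finset α)) : Prop :=
  ∃ f : ℕ → α, Set.InjOn f {x : ℕ | ∃ i, i < t ∧ x ∈ e i} ∧ ∀ i, i < t → (e i).image f ∈ G

/-- `H` contains a tight path with `t` edges: distinct vertices `f 0, …, f (r+t-2)` such that any
`r` consecutive ones form a member of `H`. -/
def HasTightPath {α : Type*} [DecidableEq α] (r t : ℕ) (H : Finset (Finset α)) : Prop :=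
  ∃ f : ℕ → α, Set.InjOn f (Set.Iio (r + t - 1)) ∧
    ∀ i, i < t → (Finset.Ico i (i + r)).image f ∈ H

end Pool.Agent.W689.Ka
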