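import Pool.Agent.W689.Ka.Defs

/-!
Elementary facts on proper orderings of tight trees.
-/

set_option autoImplicit false

open Finset

namespace Pool.Agent.W689.Ka

theorem TightTree.mono {r t t' : ℕ} {e : ℕ → Finset ℕ} (h : TightTree r t e) (ht : t' ≤ t) :
    TightTree r t' e :=
  ⟨fun i hi => h.1 i (by omega), fun i h0 hi => h.2 i h0 (by omega)⟩

/-- the parent of an edge -/
theorem TightTree.parent {r t : ℕ} {e : ℕ → Finset ℕ} (h : TightTree r t e) {i : ℕ} (h0 : 0 < i)
    (hi : i < t) : ∃ v ∈ e i, (∀ j, j < i → v ∉ e j) ∧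
      ∃ j, j < i ∧ e i ∩ e j = (e i).erase v ∧ (e i ∩ e j).card = r - 1 := by
  obtain ⟨v, hv, hnew, j, hj, hsub⟩ := h.2 i h0 hi
  refine ⟨v, hv, hnew, j, hj, ?_, ?_⟩
  · ext z
    simp only [mem_inter, mem_erase]
    constructor
    · rintro ⟨h1, h2⟩
      refine ⟨?_, h1⟩
      rintro rfl
      exact hnew j hj h2
    · rintro ⟨h1, h2⟩
      exact ⟨h2, hsub (by simp [h1, h2])⟩
  · have : e i ∩ e j = (e i).erase v := by
      ext z
      simp only [mem_inter, mem_erase]
      constructor
      · rintro ⟨h1, h2⟩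
        refine ⟨?_, h1⟩
        rintro rfl
        exact hnew j hj h2
      · rintro ⟨h1, h2⟩
        exact ⟨h2, hsub (by simp [h1, h2])⟩
    rw [this, card_erase_of_mem hv, h.1 i hi]

/-- Any proper nonempty set of edges has an edge adjacent to an edge outside it. -/
theorem TightTree.connected {r m : ℕ} {e : ℕ → Finset ℕ} (h : TightTree r m e)
    (S : Finset ℕ) (hS : S.Nonempty) (hsub : ∀ i ∈ S, i < m) (hlt : S.card < m) :
    ∃ i ∈ S, ∃ j, j < m ∧ j ∉ S ∧ (e i ∩ e j).card = r - 1 := by
  by_cases h0 : 0 ∈ S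
  · -- least index outside
    have hex : ∃ j, j < m ∧ j ∉ S := by
      by_contra hcon
      push Not at hcon
      have : range m ⊆ S := fun j hj => hcon j (mem_range.1 hj)
      have := card_le_card this
      rw [card_range] at this
      omega
    classical
    obtain ⟨hj1, hj2⟩ := Nat.find_spec hex
    set j := Nat.find hex with hj
    have hj0 : 0 < j := by
      rcases Nat.eq_zero_or_pos j with h' | h'
      · rw [h'] at hj2; exact absurd h0 hj2
      · exact h'
    obtain ⟨v, -, -, i, hi, -, hc⟩ := h.parent hj0 hj1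
    have hiS : i ∈ S := by
      by_contra hcon
      exact Nat.find_min hex hi ⟨by omega, hcon⟩
    exact ⟨i, hiS, j, hj1, hj2, by rw [inter_comm]; exact hc⟩
  · have hex : ∃ j, j ∈ S := hS
    classical
    have hj2 := Nat.find_spec hex
    set j := Nat.find hex with hj
    have hj0 : 0 < j := by
      rcases Nat.eq_zero_or_pos j with h' | h'
      · rw [h'] at hj2; exact absurd hj2 h0
      · exact h'
    obtain ⟨v, -, -, i, hi, -, hc⟩ := h.parent hj0 (hsub j hj2)
    refine ⟨j, hj2, i, lt_trans hi (hsub j hj2), ?_, hc⟩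
    intro hcon
    exact Nat.find_min hex hi hcon

/-- vertex set of a set of edges -/
def VS (e : ℕ → Finset ℕ) (S : Finset ℕ) : Finset ℕ := S.biUnion e

theorem mem_VS {e : ℕ → Finset ℕ} {S : Finset ℕ} {x : ℕ} : x ∈ VS e S ↔ ∃ i ∈ S, x ∈ e i := by
  simp [VS]

theorem VS_insert {e : ℕ → Finset ℕ} {S : Finset ℕ} {j : ℕ} : VS e (insert j S) = e j ∪ VS e S := by
  simp [VS]

/-- adjacent edges: removing and adding a vertex -/
theorem adj_split {r : ℕ} {A B : Finset ℕ} (hr : 1 ≤ r) (hA : A.card = r)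
    (hAB : (A ∩ B).card = r - 1) : ∃ x ∈ A, x ∉ B ∧ A.erase x = A ∩ B := by
  have h1 : (A \ B).card = 1 := by
    have := card_sdiff_add_card_inter A B
    omega
  obtain ⟨x, hx⟩ := card_eq_one.1 h1
  have hxm : x ∈ A \ B := by rw [hx]; exact mem_singleton_self _
  rw [mem_sdiff] at hxm
  refine ⟨x, hxm.1, hxm.2, ?_⟩
  ext z
  simp only [mem_erase, mem_inter]
  constructor
  · rintro ⟨h2, h3⟩
    refine ⟨h3, ?_⟩
    by_contra h4
    have : z ∈ A \ B := mem_sdiff.2 ⟨h3, h4⟩
    rw [hx, mem_singleton] at this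
    exact h2 this
  · rintro ⟨h2, h3⟩
    refine ⟨?_, h2⟩
    rintro rfl
    exact hxm.2 h3

theorem VS_insert_card {r : ℕ} {e : ℕ → Finset ℕ} {S : Finset ℕ} {i j : ℕ} (hr : 1 ≤ r)
    (hi : i ∈ S) (hj : (e j).card = r) (hc : (e i ∩ e j).card = r - 1) :
    (VS e (insert j S)).card ≤ (VS e S).card + 1 := by
  rw [VS_insert]
  obtain ⟨v, hv, hvi, he⟩ := adj_split hr hj (by rw [inter_comm]; exact hc)
  have : e j ∪ VS e S ⊆ insert v (VS e S) := by
    intro z hz
    rcases mem_union.1 hz with h | h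
    · by_cases hzv : z = v
      · rw [hzv]; exact mem_insert_self _ _
      · have h2 : z ∈ (e j).erase v := mem_erase.2 ⟨hzv, h⟩
        rw [he, mem_inter] at h2
        exact mem_insert_of_mem (mem_VS.2 ⟨i, hi, h2.2⟩)
    · exact mem_insert_of_mem h
  exact (card_le_card this).trans (card_insert_le _ _)

theorem TightTree.VS_full {r m : ℕ} {e : ℕ → Finset ℕ} (h : TightTree r m e) :
    ∀ k, 1 ≤ k → k ≤ m → r + k ≤ (VS e (range k)).card + 1 := by
  intro k h1
  induction k, h1 using Nat.le_induction with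
  | base =>
    intro hk
    have : VS e (range 1) = e 0 := by simp [VS]
    rw [this, h.1 0 (by omega)]
  | succ k hk ih =>
    intro hk'
    have h2 := ih (by omega)
    obtain ⟨v, hv, hnew, -⟩ := h.parent (i := k) (by omega) (by omega)
    have h3 : insert v (VS e (range k)) ⊆ VS e (range (k + 1)) := by
      intro z hz
      rcases mem_insert.1 hz with rfl | hz
      · exact mem_VS.2 ⟨k, mem_range.2 (by omega), hv⟩
      · obtain ⟨i, hi, hzi⟩ := mem_VS.1 hz
        exact mem_VS.2 ⟨i, mem_range.2 (by have := mem_range.1 hi; omega), hzi⟩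
    have h4 : v ∉ VS e (range k) := by
      intro hcon
      obtain ⟨i, hi, hzi⟩ := mem_VS.1 hcon
      exact hnew i (mem_range.1 hi) hzi
    have h5 := card_le_card h3
    rw [card_insert_of_notMem h4] at h5
    omega

theorem TightTree.VS_grow {r m : ℕ} {e : ℕ → Finset ℕ} (h : TightTree r m e) (hr : 1 ≤ r) :
    ∀ d, ∀ S : Finset ℕ, S.Nonempty → (∀ i ∈ S, i < m) → S.card + d = m →
      (VS e (range m)).card ≤ (VS e S).card + d := by
  intro d
  induction d with
  | zero =>
    intro S _ hsub hc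
    have : S = range m := by
      apply eq_of_subset_of_card_le
      · intro i hi; exact mem_range.2 (hsub i hi)
      · rw [card_range]; omega
    rw [this]; simp
  | succ d ih =>
    intro S hne hsub hc
    obtain ⟨i, hi, j, hj, hjS, hadj⟩ := h.connected S hne hsub (by omega)
    have h1 := ih (insert j S) (insert_nonempty _ _) (by
      intro k hk
      rcases mem_insert.1 hk with rfl | hk
      · exact hj
      · exact hsub k hk) (by rw [card_insert_of_notMem hjS]; omega)
    have h2 := VS_insert_card (e := e) hr hi (h.1 j hj) hadj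
    omega

/-- in a grown set the vertex added by an adjacent edge is new -/
theorem TightTree.new_vertex {r m : ℕ} {e : ℕ → Finset ℕ} (h : TightTree r m e) (hr : 1 ≤ r)
    {S : Finset ℕ} (hsub : ∀ i ∈ S, i < m) (hV : (VS e S).card + 1 ≤ r + S.card)
    {i j : ℕ} (hi : i ∈ S) (hj : j < m) (hjS : j ∉ S) (hadj : (e i ∩ e j).card = r - 1)
    {v : ℕ} (hv : v ∈ e j) (hvi : v ∉ e i) : v ∉ VS e S := by
  intro hcon
  have hej := h.1 j hj
  obtain ⟨v', hv', hvi', he⟩ := adj_split hr hej (by rw [inter_comm]; exact hadj)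
  have hvv : v = v' := by
    by_contra hne
    have : v ∈ (e j).erase v' := mem_erase.2 ⟨hne, hv⟩
    rw [he, mem_inter] at this
    exact hvi this.2
  subst hvv
  have h1 : VS e (insert j S) = VS e S := by
    rw [VS_insert]
    apply union_eq_right.2
    intro z hz
    by_cases hzv : z = v
    · rw [hzv]; exact hcon
    · have : z ∈ (e j).erase v := mem_erase.2 ⟨hzv, hz⟩
      rw [he, mem_inter] at this
      exact mem_VS.2 ⟨i, hi, this.2⟩
  have hcard : (insert j S).card = S.card + 1 := card_insert_of_notMem hjS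
  have hle : (insert j S).card ≤ m := by
    have : insert j S ⊆ range m := by
      intro k hk
      rcases mem_insert.1 hk with rfl | hk
      · exact mem_range.2 hj
      · exact mem_range.2 (hsub k hk)
    have := card_le_card this
    rwa [card_range] at this
  have h2 := h.VS_grow hr (m - (insert j S).card) (insert j S) (insert_nonempty _ _) (by
      intro k hk
      rcases mem_insert.1 hk with rfl | hk
      · exact hj
      · exact hsub k hk) (by omega)
  have h3 := h.VS_full m (by omega) le_rfl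
  rw [h1] at h2
  omega

theorem mem_ridges {r t : ℕ} {e : ℕ → Finset ℕ} {ρ : Finset ℕ} :
    ρ ∈ ridges r t e ↔ ∃ i, ∃ j, i < t ∧ j < t ∧ i ≠ j ∧ (e i ∩ e j).card = r - 1 ∧
      e i ∩ e j = ρ := by
  simp only [ridges, mem_image, mem_filter, mem_product, mem_range, Prod.exists]
  constructor
  · rintro ⟨i, j, ⟨⟨h1, h2⟩, h3, h4⟩, h5⟩
    exact ⟨i, j, h1, h2, h3, h4, h5⟩
  · rintro ⟨i, j, h1, h2, h3, h4, h5⟩
    exact ⟨i, j, ⟨⟨h1, h2⟩, h3, h4⟩, h5⟩

/-- There are at most `t - 1` interior facets. -/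
theorem TightTree.ridges_card {r t : ℕ} {e : ℕ → Finset ℕ} (h : TightTree r t e) (hr : 1 ≤ r) :
    (ridges r t e).card ≤ t - 1 := by
  classical
  have hch : ∀ i, ∃ ρ : Finset ℕ, (0 < i → i < t → ∃ v ∈ e i, (∀ j, j < i → v ∉ e j) ∧
      ρ = (e i).erase v) := by
    intro i
    by_cases hi : 0 < i ∧ i < t
    · obtain ⟨v, hv, hnew, -⟩ := h.parent hi.1 hi.2
      exact ⟨(e i).erase v, fun _ _ => ⟨v, hv, hnew, rfl⟩⟩
    · exact ⟨∅, fun h1 h2 => absurd ⟨h1, h2⟩ hi⟩
  choose ρ hρ using hch
  have hsub : ridges r t e ⊆ ((range t).erase 0).image ρ := by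
    intro σ hσ
    obtain ⟨i, j, hi, hj, hij, hc, rfl⟩ := mem_ridges.1 hσ
    have key : ∀ a b, a < b → b < t → (e a ∩ e b).card = r - 1 →
        e a ∩ e b ∈ ((range t).erase 0).image ρ := by
      intro a b hab hb hcab
      obtain ⟨v, hv, hnew, hρe⟩ := hρ b (by omega) hb
      rw [mem_image]
      refine ⟨b, by simp; omega, ?_⟩
      rw [hρe]
      symm
      apply eq_of_subset_of_card_le
      · intro z hz
        rw [mem_inter] at hz
        refine mem_erase.2 ⟨?_, hz.2⟩
        rintro rfl
        exact hnew a hab hz.1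
      · rw [card_erase_of_mem hv, h.1 b hb, hcab]
    rcases lt_or_gt_of_ne hij with h1 | h1
    · exact key i j h1 hj hc
    · rw [inter_comm]
      exact key j i h1 hi (by rw [inter_comm]; exact hc)
  refine (card_le_card hsub).trans (card_image_le.trans ?_)
  by_cases ht : 0 < t
  · rw [card_erase_of_mem (mem_range.2 ht), card_range]
  · have : t = 0 := by omega
    subst this
    simp

end Pool.Agent.W689.Ka
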