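import Pool.Agent.W689.Ka.Pot
import Pool.Agent.W689.Ka.Tree

/-!
Embedding a free tight tree into a family in which every member has many facets of large degree
and some facet has still larger degree.
-/

set_option autoImplicit false

open Finset

namespace Pool.Agent.W689.Ka

/-- vertices common to all edges of `S`, other than `xp` -/
def core (e : ℕ → Finset ℕ) (p xp : ℕ) (S : Finset ℕ) : Finset ℕ :=
  (e p).filter (fun x => x ≠ xp ∧ ∀ k ∈ S, x ∈ e k)

theorem mem_core {e : ℕ → Finset ℕ} {p xp : ℕ} {S : Finset ℕ} {x : ℕ} :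
    x ∈ core e p xp S ↔ x ∈ e p ∧ x ≠ xp ∧ ∀ k ∈ S, x ∈ e k := by simp [core]

/-- the facets already opened -/
def opened (r : ℕ) (e : ℕ → Finset ℕ) (p xp : ℕ) (S : Finset ℕ) : Finset (Finset ℕ) :=
  insert ((e p).erase xp) (((S ×ˢ S).filter
    (fun q => q.1 ≠ q.2 ∧ (e q.1 ∩ e q.2).card = r - 1)).image (fun q => e q.1 ∩ e q.2))

theorem mem_opened {r : ℕ} {e : ℕ → Finset ℕ} {p xp : ℕ} {S : Finset ℕ} {ρ : Finset ℕ} :
    ρ ∈ opened r e p xp S ↔ ρ = (e p).erase xp ∨
      ∃ i ∈ S, ∃ j ∈ S, i ≠ j ∧ (e i ∩ e j).card = r - 1 ∧ e i ∩ e j = ρ := by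
  simp only [opened, mem_insert, mem_image, mem_filter, mem_product, Prod.exists]
  constructor
  · rintro (h | ⟨i, j, ⟨⟨h1, h2⟩, h3, h4⟩, h5⟩)
    · exact Or.inl h
    · exact Or.inr ⟨i, h1, j, h2, h3, h4, h5⟩
  · rintro (h | ⟨i, h1, j, h2, h3, h4, h5⟩)
    · exact Or.inl h
    · exact Or.inr ⟨i, j, ⟨⟨h1, h2⟩, h3, h4⟩, h5⟩

variable {α : Type*} [DecidableEq α] [Fintype α]

/-- State of the embedding. -/
structure St (r m : ℕ) (e : ℕ → Finset ℕ) (G : Finset (Finset α)) (p xp : ℕ) (S : Finset ℕ)
    (φ : ℕ → α) : Prop where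
  hp : p ∈ S
  hS : ∀ i ∈ S, i < m
  inj : Set.InjOn φ (VS e S : Set ℕ)
  mem : ∀ i ∈ S, (e i).image φ ∈ G
  big : ∀ i ∈ S, ∀ k ∈ S, i ≠ k → (e i ∩ e k).card = r - 1 →
    m ≤ deg G ((e i ∩ e k).image φ)
  res : m + 1 ≤ deg G (((e p).erase xp).image φ)
  cardV : (VS e S).card + 1 ≤ r + S.card
  lost : ∀ x ∈ VS e S, ∀ k ∈ S, x ∉ e k →
    ∃ i ∈ S, ∃ k' ∈ S, x ∈ e i ∧ x ∉ e k' ∧ (e i).erase x ⊆ e k'
  cnt : r ≤ (core e p xp S).card + (opened r e p xp S).card

/-- a new vertex in the neighbourhood of a facet -/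
theorem exists_new {G : Finset (Finset α)} {φ : ℕ → α} {V ρ : Finset ℕ} (hρ : ρ ⊆ V)
    (hd : V.card - ρ.card < deg G (ρ.image φ)) :
    ∃ w, w ∉ ρ.image φ ∧ insert w (ρ.image φ) ∈ G ∧ w ∉ V.image φ := by
  by_contra hcon
  push Not at hcon
  have hsub : nb G (ρ.image φ) ⊆ (V \ ρ).image φ := by
    intro w hw
    rw [mem_nb] at hw
    have := hcon w hw.1 hw.2
    obtain ⟨z, hz, rfl⟩ := mem_image.1 this
    refine mem_image.2 ⟨z, mem_sdiff.2 ⟨hz, ?_⟩, rfl⟩
    intro hz'
    exact hw.1 (mem_image_of_mem _ hz')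
  have h1 := (card_le_card hsub).trans card_image_le
  rw [card_sdiff_of_subset hρ] at h1
  unfold deg at hd
  omega

omit [Fintype α] in
theorem image_update_of_notMem {A : Finset ℕ} {φ : ℕ → α} {v : ℕ} {w : α} (h : v ∉ A) :
    A.image (Function.update φ v w) = A.image φ := by
  apply image_congr
  intro z hz
  have : z ≠ v := by
    rintro rfl
    exact h hz
  exact Function.update_of_ne this _ _

theorem St.step {r m : ℕ} {e : ℕ → Finset ℕ} {G : Finset (Finset α)} {p xp : ℕ} {S : Finset ℕ}
    {φ : ℕ → α} (hT : TightTree r m e) (hr : 1 ≤ r) (h : St r m e G p xp S φ)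
    {i j : ℕ} (hi : i ∈ S) (hj : j < m) (hjS : j ∉ S) (hadj : (e i ∩ e j).card = r - 1)
    (hdeg : m ≤ deg G ((e i ∩ e j).image φ)) : ∃ φ', St r m e G p xp (insert j S) φ' := by
  have hlt : S.card < m := by
    have : S ⊂ range m := by
      rw [Finset.ssubset_iff_of_subset (fun k hk => mem_range.2 (h.hS k hk))]
      exact ⟨j, mem_range.2 hj, hjS⟩
    have := card_lt_card this
    rwa [card_range] at this
  have hei := hT.1 i (h.hS i hi)
  have hej := hT.1 j hj
  obtain ⟨v, hv, hvi, hev⟩ := adj_split hr hej (by rw [inter_comm]; exact hadj)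
  obtain ⟨x, hx, hxj, hex⟩ := adj_split hr hei hadj
  set ρ := e i ∩ e j with hρ
  rw [inter_comm, ← hρ] at hev
  have hvV : v ∉ VS e S := hT.new_vertex hr h.hS h.cardV hi hj hjS hadj hv hvi
  have hsubV : ∀ k ∈ S, e k ⊆ VS e S := fun k hk z hz => mem_VS.2 ⟨k, hk, hz⟩
  have hρV : ρ ⊆ VS e S := (inter_subset_left).trans (hsubV i hi)
  have hdd : (VS e S).card - ρ.card < deg G (ρ.image φ) := by
    have := h.cardV
    rw [hadj]
    omega
  obtain ⟨w, hw1, hw2, hw3⟩ := exists_new hρV hdd
  have hvk : ∀ k ∈ S, v ∉ e k := fun k hk hc => hvV (hsubV k hk hc)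
  have hejins : e j = insert v ρ := by rw [← hev, insert_erase hv]
  have hVins : VS e (insert j S) = insert v (VS e S) := by
    rw [VS_insert, hejins]
    ext z
    simp only [mem_union, mem_insert]
    constructor
    · rintro ((h1 | h1) | h1)
      · exact Or.inl h1
      · exact Or.inr (hρV h1)
      · exact Or.inr h1
    · rintro (h1 | h1)
      · exact Or.inl (Or.inl h1)
      · exact Or.inr h1
  have hjk : ∀ k ∈ S, (e j ∩ e k).card = r - 1 → e j ∩ e k = ρ := by
    intro k hk hc
    apply eq_of_subset_of_card_le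
    · intro z hz
      rw [mem_inter] at hz
      rw [← hev, mem_erase]
      refine ⟨?_, hz.1⟩
      rintro rfl
      exact hvk k hk hz.2
    · rw [hc, hadj]
  refine ⟨Function.update φ v w, ?_, ?_, ?_, ?_, ?_, ?_, ?_, ?_, ?_⟩
  · exact mem_insert_of_mem h.hp
  · intro k hk
    rcases mem_insert.1 hk with rfl | hk
    · exact hj
    · exact h.hS k hk
  · rw [hVins]
    intro a ha b hb hab
    rw [mem_coe, mem_insert] at ha hb
    have hne : ∀ c ∈ VS e S, Function.update φ v w c = φ c := by
      intro c hc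
      apply Function.update_of_ne
      rintro rfl
      exact hvV hc
    rcases ha with rfl | ha <;> rcases hb with rfl | hb
    · rfl
    · rw [hne b hb, Function.update_self] at hab
      exact absurd (hab ▸ mem_image_of_mem φ hb) hw3
    · rw [hne a ha, Function.update_self] at hab
      exact absurd (hab ▸ mem_image_of_mem φ ha) hw3
    · rw [hne a ha, hne b hb] at hab
      exact h.inj ha hb hab
  · intro k hk
    rcases mem_insert.1 hk with rfl | hk
    · have hvρ : v ∉ ρ := fun hc => hvi (mem_inter.1 hc).1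
      rw [hejins, image_insert, Function.update_self, image_update_of_notMem hvρ]
      exact hw2
    · rw [image_update_of_notMem (hvk k hk)]
      exact h.mem k hk
  · intro a ha b hb hab hc
    have hvab : v ∉ e a ∩ e b := by
      intro hcon
      rw [mem_inter] at hcon
      rcases mem_insert.1 ha with rfl | ha
      · rcases mem_insert.1 hb with rfl | hb
        · exact hab rfl
        · exact hvk b hb hcon.2
      · exact hvk a ha hcon.1
    rw [image_update_of_notMem hvab]
    rcases mem_insert.1 ha with ha' | ha'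
    · rcases mem_insert.1 hb with hb' | hb'
      · exact absurd (ha'.trans hb'.symm) hab
      · rw [ha'] at hc ⊢
        rw [hjk b hb' hc]; exact hdeg
    · rcases mem_insert.1 hb with hb' | hb'
      · rw [inter_comm, hb'] at hc ⊢
        rw [hjk a ha' hc]; exact hdeg
      · exact h.big a ha' b hb' hab hc
  · rw [image_update_of_notMem]
    · exact h.res
    · intro hc
      exact hvk p h.hp (mem_of_mem_erase hc)
  · rw [hVins, card_insert_of_notMem hvV, card_insert_of_notMem hjS]
    have := h.cardV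
    omega
  · intro z hz k hk hzk
    rw [hVins, mem_insert] at hz
    rcases hz with rfl | hz
    · refine ⟨j, mem_insert_self _ _, i, mem_insert_of_mem hi, hv, hvi, ?_⟩
      rw [hev]; exact inter_subset_left
    · by_cases hall : ∀ k' ∈ S, z ∈ e k'
      · have hkj : k = j := by
          rcases mem_insert.1 hk with hk | hk
          · exact hk
          · exact absurd (hall k hk) hzk
        subst hkj
        have hzi := hall i hi
        have hzx : z = x := by
          by_contra hne
          have : z ∈ (e i).erase x := mem_erase.2 ⟨hne, hzi⟩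
          rw [hex, mem_inter] at this
          exact hzk this.2
        subst hzx
        refine ⟨i, mem_insert_of_mem hi, k, mem_insert_self _ _, hx, hxj, ?_⟩
        rw [hex]; exact inter_subset_right
      · push Not at hall
        obtain ⟨k', hk', hzk'⟩ := hall
        obtain ⟨a, ha, b, hb, h1, h2, h3⟩ := h.lost z hz k' hk' hzk'
        exact ⟨a, mem_insert_of_mem ha, b, mem_insert_of_mem hb, h1, h2, h3⟩
  · have hopsub : opened r e p xp S ⊆ opened r e p xp (insert j S) := by
      intro σ hσ
      rw [mem_opened] at hσ ⊢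
      rcases hσ with h1 | ⟨a, ha, b, hb, h1, h2, h3⟩
      · exact Or.inl h1
      · exact Or.inr ⟨a, mem_insert_of_mem ha, b, mem_insert_of_mem hb, h1, h2, h3⟩
    have hij : i ≠ j := by
      rintro rfl
      exact hjS hi
    have hρop : ρ ∈ opened r e p xp (insert j S) := by
      rw [mem_opened]
      exact Or.inr ⟨i, mem_insert_of_mem hi, j, mem_insert_self _ _, hij, hadj, rfl⟩
    by_cases hop : ρ ∈ opened r e p xp S
    · have hcore : core e p xp S ⊆ core e p xp (insert j S) := by
        intro z hz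
        rw [mem_core] at hz ⊢
        refine ⟨hz.1, hz.2.1, ?_⟩
        intro k hk
        rcases mem_insert.1 hk with rfl | hk
        · have hzρ : z ∈ ρ := by
            rw [mem_opened] at hop
            rcases hop with h1 | ⟨a, ha, b, hb, -, -, h3⟩
            · rw [h1, mem_erase]; exact ⟨hz.2.1, hz.1⟩
            · rw [← h3, mem_inter]; exact ⟨hz.2.2 a ha, hz.2.2 b hb⟩
          exact (mem_inter.1 hzρ).2
        · exact hz.2.2 k hk
      have h1 := card_le_card hcore
      have h2 := card_le_card hopsub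
      have := h.cnt
      omega
    · have h1 : (opened r e p xp S).card + 1 ≤ (opened r e p xp (insert j S)).card := by
        rw [← card_insert_of_notMem hop]
        apply card_le_card
        exact insert_subset hρop hopsub
      have h2 : (core e p xp S).erase x ⊆ core e p xp (insert j S) := by
        intro z hz
        rw [mem_erase, mem_core] at hz
        rw [mem_core]
        refine ⟨hz.2.1, hz.2.2.1, ?_⟩
        intro k hk
        rcases mem_insert.1 hk with rfl | hk
        · have : z ∈ (e i).erase x := mem_erase.2 ⟨hz.1, hz.2.2.2 i hi⟩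
          rw [hex, mem_inter] at this
          exact this.2
        · exact hz.2.2.2 k hk
      have h3 := card_le_card h2
      have h4 := pred_card_le_card_erase (s := core e p xp S) (a := x)
      have := h.cnt
      omega

omit [Fintype α] in
theorem image_comp_swap {A : Finset ℕ} {φ : ℕ → α} {x y : ℕ} (hx : x ∈ A) (hy : y ∈ A) :
    A.image (φ ∘ Equiv.swap x y) = A.image φ := by
  rw [← image_image]
  congr 1
  ext z
  simp only [mem_image]
  constructor
  · rintro ⟨u, hu, rfl⟩
    by_cases h1 : u = x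
    · rw [h1, Equiv.swap_apply_left]; exact hy
    · by_cases h2 : u = y
      · rw [h2, Equiv.swap_apply_right]; exact hx
      · rw [Equiv.swap_apply_of_ne_of_ne h1 h2]; exact hu
  · intro hz
    by_cases h1 : z = x
    · exact ⟨y, hy, by rw [Equiv.swap_apply_right, h1]⟩
    · by_cases h2 : z = y
      · exact ⟨x, hx, by rw [Equiv.swap_apply_left, h2]⟩
      · exact ⟨z, hz, Equiv.swap_apply_of_ne_of_ne h1 h2⟩

/-- exchanging two vertices common to all edges does not change the state -/
theorem St.swap {r m : ℕ} {e : ℕ → Finset ℕ} {G : Finset (Finset α)} {p xp : ℕ} {S : Finset ℕ}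
    {φ : ℕ → α} (h : St r m e G p xp S φ) {x y : ℕ} (hx : x ∈ core e p xp S)
    (hy : y ∈ core e p xp S) : St r m e G p xp S (φ ∘ Equiv.swap x y) := by
  rw [mem_core] at hx hy
  refine ⟨h.hp, h.hS, ?_, ?_, ?_, ?_, h.cardV, h.lost, h.cnt⟩
  · have hmaps : ∀ z ∈ VS e S, Equiv.swap x y z ∈ VS e S := by
      intro z hz
      by_cases h1 : z = x
      · rw [h1, Equiv.swap_apply_left]; exact mem_VS.2 ⟨p, h.hp, hy.1⟩
      · by_cases h2 : z = y
        · rw [h2, Equiv.swap_apply_right]; exact mem_VS.2 ⟨p, h.hp, hx.1⟩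
        · rw [Equiv.swap_apply_of_ne_of_ne h1 h2]; exact hz
    intro a ha b hb hab
    have := h.inj (hmaps a ha) (hmaps b hb) hab
    exact (Equiv.swap x y).injective this
  · intro k hk
    rw [image_comp_swap (hx.2.2 k hk) (hy.2.2 k hk)]
    exact h.mem k hk
  · intro a ha b hb hab hc
    rw [image_comp_swap (mem_inter.2 ⟨hx.2.2 a ha, hx.2.2 b hb⟩)
      (mem_inter.2 ⟨hy.2.2 a ha, hy.2.2 b hb⟩)]
    exact h.big a ha b hb hab hc
  · rw [image_comp_swap (mem_erase.2 ⟨hx.2.1, hx.1⟩) (mem_erase.2 ⟨hy.2.1, hy.1⟩)]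
    exact h.res

end Pool.Agent.W689.Ka
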