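import Pool.Agent.W689.Ka.Ext

/-!
Equality in the bound for tight paths, and Steiner systems.
-/

set_option autoImplicit false

open Finset

namespace Pool.Agent.W689.Ka

section

variable {α : Type*} [DecidableEq α] [Fintype α]

/-- Equality forces all degrees in the shadow to be `t - 1 = D + 1`. -/
theorem regular_of_eq {r D : ℕ} {e : ℕ → Finset ℕ} (hD : 1 ≤ D) (hr : 1 ≤ r)
    (hT : TightTree r (D + 2) e) (hF : Free (D + 2) e)
    (hK : ((ridges r (D + 2) e).card - 1) * (D + 1) < r)
    (hK1 : 1 ≤ (ridges r (D + 2) e).card)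
    (G : Finset (Finset α)) (hu : ∀ E ∈ G, E.card = r)
    (hno : ¬ Copy (D + 2) e G) (heq : r * G.card = (D + 1) * G.shadow.card) :
    ∀ E ∈ G, ∀ x ∈ E, deg G (E.erase x) = D + 1 := by
  classical
  set K := (ridges r (D + 2) e).card with hKdef
  have hDr : (1 : ℝ) ≤ D := by exact_mod_cast hD
  have hKr : ((K : ℝ) - 1) * ((D : ℝ) + 1) < r := by
    have : (((K - 1) * (D + 1) : ℕ) : ℝ) < (r : ℝ) := by exact_mod_cast hK
    rw [Nat.cast_mul, Nat.cast_sub hK1] at this
    push_cast at this
    exact this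
  set c : ℝ := (r : ℝ) * D / ((D : ℝ) + 1) with hc
  have hc2 : c * ((D : ℝ) + 1) = r * D := by rw [hc]; field_simp
  have hc1 : c < (r : ℝ) - K + 1 := by
    rw [hc, div_lt_iff₀ (by positivity)]
    nlinarith
  have hcore : ∀ G : Finset (Finset α), (∀ e ∈ G, e.card = r) → ¬ Copy (D + 2) e G →
      (∀ e ∈ G, K ≤ (e.filter (fun x => D + 1 ≤ deg G (e.erase x))).card) →
      ∀ f, deg G f ≤ D + 1 := by
    intro G hu hn hcore f
    by_contra hcon
    push Not at hcon
    exact hn (copy_of_core (m := D + 1) hT hF hr (by omega) hu hcore (f := f) (by omega))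
  have hpeel := peel (α := α) r K D (fun G => ¬ Copy (D + 2) e G)
    (fun G G' h hn hc => hn (Copy.mono h hc)) hcore c hc1.le hc2.le
  have hdeg : ∀ f, deg G f ≤ D + 1 := by
    apply hcore G hu hno
    by_contra hcon
    push Not at hcon
    obtain ⟨E, hE, hlt⟩ := hcon
    have h1 := hpeel (G.erase E) (fun e' he' => hu e' (mem_of_mem_erase he'))
      (fun hc => hno (Copy.mono (erase_subset _ _) hc))
    have h2 := pot_erase D hE
    have h3 : (E.filter (fun x => deg G (E.erase x) ≤ D)).card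
        + (E.filter (fun x => D + 1 ≤ deg G (E.erase x))).card = r := by
      rw [← hu E hE, ← Finset.card_filter_add_card_filter_not (s := E)
        (fun x => deg G (E.erase x) ≤ D)]
      congr 2
      apply Finset.filter_congr
      intro x _
      omega
    have h4 : r + 1 ≤ (E.filter (fun x => deg G (E.erase x) ≤ D)).card + K := by omega
    have h4' : (r : ℝ) + 1 ≤ ((E.filter (fun x => deg G (E.erase x) ≤ D)).card : ℝ) + K := by
      exact_mod_cast h4
    have h2' : (pot D (G.erase E) : ℝ) + ((E.filter (fun x => deg G (E.erase x) ≤ D)).card : ℝ)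
        ≤ (pot D G : ℝ) := by exact_mod_cast h2
    have h5 : ((G.erase E).card : ℝ) = (G.card : ℝ) - 1 := by
      rw [card_erase_of_mem hE, Nat.cast_sub (card_pos.2 ⟨E, hE⟩)]
      simp
    rw [h5] at h1
    have h6 : (pot D G : ℝ) ≤ (D : ℝ) * (G.shadow.card : ℝ) := by exact_mod_cast pot_le D G
    have h7 : (r : ℝ) * G.card = ((D : ℝ) + 1) * G.shadow.card := by exact_mod_cast heq
    have h8 : c * (G.card : ℝ) < (D : ℝ) * (G.shadow.card : ℝ) := by nlinarith
    have h9 : (c * (G.card : ℝ)) * ((D : ℝ) + 1) = (D : ℝ) * (G.shadow.card : ℝ) * ((D : ℝ) + 1) := by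
      calc (c * (G.card : ℝ)) * ((D : ℝ) + 1) = (c * ((D : ℝ) + 1)) * G.card := by ring
        _ = D * ((r : ℝ) * G.card) := by rw [hc2]; ring
        _ = _ := by rw [h7]; ring
    have h10 : (0 : ℝ) < (D : ℝ) + 1 := by positivity
    have := mul_lt_mul_of_pos_right h8 h10
    linarith
  -- sum over the shadow
  have hsum : ∑ f ∈ G.shadow, deg G f = r * G.card := by
    have h1 : ∑ f : Finset α, deg G f = r * G.card := by
      rw [sum_deg, Finset.sum_congr rfl hu, Finset.sum_const, smul_eq_mul, mul_comm]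
    rw [← h1]
    apply Finset.sum_subset (subset_univ _)
    intro f _ hf
    unfold deg
    rw [card_eq_zero, eq_empty_iff_forall_notMem]
    intro v hv
    rw [mem_nb] at hv
    exact hf (mem_shadow_iff_insert_mem.2 ⟨v, hv.1, hv.2⟩)
  have hsum2 : ∑ f ∈ G.shadow, deg G f = ∑ f ∈ G.shadow, (D + 1) := by
    rw [hsum, heq, Finset.sum_const, smul_eq_mul, mul_comm]
  have hall := (Finset.sum_eq_sum_iff_of_le (fun f _ => hdeg f)).1 hsum2
  intro E hE x hx
  exact hall _ (mem_shadow_iff.2 ⟨E, hE, x, hx, rfl⟩)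

/-- Unions of almost disjoint cliques: degrees in the shadow. -/
theorem union_nb {r m : ℕ} {Q : Finset (Finset α)}
    (hQ1 : ∀ A ∈ Q, A.card + 1 = r + m)
    (hQ2 : ∀ A ∈ Q, ∀ B ∈ Q, A ≠ B → (A ∩ B).card < r - 1) (hr : 1 ≤ r)
    {f : Finset α} (hf : f.card = r - 1) {A : Finset α} (hA : A ∈ Q) (hfA : f ⊆ A) :
    deg (Q.biUnion (fun A => A.powersetCard r)) f = m := by
  have h1 : nb (Q.biUnion (fun A => A.powersetCard r)) f = A \ f := by
    ext v
    rw [mem_nb, mem_sdiff, mem_biUnion]
    constructor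
    · rintro ⟨h1, B, hB, h2⟩
      rw [mem_powersetCard] at h2
      have hAB : A = B := by
        by_contra hne
        have h3 := hQ2 A hA B hB hne
        have h4 : f ⊆ A ∩ B := subset_inter hfA ((subset_insert _ _).trans h2.1)
        have := card_le_card h4
        omega
      subst hAB
      exact ⟨h2.1 (mem_insert_self _ _), h1⟩
    · rintro ⟨h1, h2⟩
      refine ⟨h2, A, hA, ?_⟩
      rw [mem_powersetCard]
      refine ⟨insert_subset h1 hfA, ?_⟩
      rw [card_insert_of_notMem h2, hf]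
      omega
  unfold deg
  rw [h1, card_sdiff_of_subset hfA, hf]
  have := hQ1 A hA
  omega

theorem union_count {r m : ℕ} {Q : Finset (Finset α)}
    (hQ1 : ∀ A ∈ Q, A.card + 1 = r + m)
    (hQ2 : ∀ A ∈ Q, ∀ B ∈ Q, A ≠ B → (A ∩ B).card < r - 1) (hr : 1 ≤ r) :
    r * (Q.biUnion (fun A => A.powersetCard r)).card
      = m * (Q.biUnion (fun A => A.powersetCard r)).shadow.card := by
  classical
  set G := Q.biUnion (fun A => A.powersetCard r) with hG
  have hu : ∀ E ∈ G, E.card = r := by
    intro E hE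
    rw [hG, mem_biUnion] at hE
    obtain ⟨A, _, h2⟩ := hE
    exact (mem_powersetCard.1 h2).2
  have h1 : ∑ f : Finset α, deg G f = r * G.card := by
    rw [sum_deg, Finset.sum_congr rfl hu, Finset.sum_const, smul_eq_mul, mul_comm]
  have h2 : ∑ f ∈ G.shadow, deg G f = ∑ f : Finset α, deg G f := by
    apply Finset.sum_subset (subset_univ _)
    intro f _ hf
    unfold deg
    rw [card_eq_zero, eq_empty_iff_forall_notMem]
    intro v hv
    rw [mem_nb] at hv
    exact hf (mem_shadow_iff_insert_mem.2 ⟨v, hv.1, hv.2⟩)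
  rw [← h1, ← h2]
  have h3 : ∀ f ∈ G.shadow, deg G f = m := by
    intro f hf
    obtain ⟨E, hE, x, hx, rfl⟩ := mem_shadow_iff.1 hf
    have hE' := hE
    rw [hG, mem_biUnion] at hE'
    obtain ⟨A, hA, h4⟩ := hE'
    rw [mem_powersetCard] at h4
    exact union_nb hQ1 hQ2 hr (by rw [card_erase_of_mem hx, h4.2]) hA
      ((erase_subset _ _).trans h4.1)
  rw [Finset.sum_congr rfl h3, Finset.sum_const, smul_eq_mul, mul_comm]

omit [Fintype α] in
theorem union_free {r m : ℕ} {e : ℕ → Finset ℕ} (hT : TightTree r (m + 1) e)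
    {Q : Finset (Finset α)} (hQ1 : ∀ A ∈ Q, A.card + 1 = r + m)
    (hQ2 : ∀ A ∈ Q, ∀ B ∈ Q, A ≠ B → (A ∩ B).card < r - 1) :
    ¬ Copy (m + 1) e (Q.biUnion (fun A => A.powersetCard r)) := by
  rintro ⟨f, hf1, hf2⟩
  have hin : ∀ i, i < m + 1 → ∃ A ∈ Q, (e i).image f ⊆ A := by
    intro i hi
    have := hf2 i hi
    rw [mem_biUnion] at this
    obtain ⟨A, hA, h2⟩ := this
    exact ⟨A, hA, (mem_powersetCard.1 h2).1⟩
  have hinj : ∀ i, i < m + 1 → Set.InjOn f (e i : Set ℕ) := by
    intro i hi a ha b hb hab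
    exact hf1 ⟨i, hi, ha⟩ ⟨i, hi, hb⟩ hab
  obtain ⟨A, hA, hA0⟩ := hin 0 (by omega)
  have hall : ∀ i, i < m + 1 → (e i).image f ⊆ A := by
    intro i
    induction i using Nat.strong_induction_on with
    | _ i ih =>
      intro hi
      rcases Nat.eq_zero_or_pos i with h0 | h0
      · rw [h0]; exact hA0
      · obtain ⟨v, hv, hnew, j, hj, -, hc⟩ := hT.parent h0 hi
        have h1 := ih j hj (by omega)
        obtain ⟨B, hB, hB0⟩ := hin i hi
        have hAB : A = B := by
          by_contra hne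
          have h3 := hQ2 A hA B hB hne
          have h4 : (e i ∩ e j).image f ⊆ A ∩ B := by
            intro z hz
            obtain ⟨u, hu, rfl⟩ := mem_image.1 hz
            rw [mem_inter] at hu ⊢
            exact ⟨h1 (mem_image_of_mem f hu.2), hB0 (mem_image_of_mem f hu.1)⟩
          have h5 := card_le_card h4
          rw [card_image_of_injOn ((hinj i hi).mono (by
            intro z hz; exact (mem_inter.1 (mem_coe.1 hz)).1)), hc] at h5
          omega
        rw [hAB]; exact hB0
  have hbig : (VS e (range (m + 1))).image f ⊆ A := by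
    intro z hz
    obtain ⟨u, hu, rfl⟩ := mem_image.1 hz
    obtain ⟨i, hi, hui⟩ := mem_VS.1 hu
    exact hall i (mem_range.1 hi) (mem_image_of_mem f hui)
  have h6 := card_le_card hbig
  rw [card_image_of_injOn (hf1.mono (by
    intro u hu
    obtain ⟨i, hi, hui⟩ := mem_VS.1 (mem_coe.1 hu)
    exact ⟨i, mem_range.1 hi, hui⟩))] at h6
  have h7 := hT.VS_full (m + 1) (by omega) le_rfl
  have := hQ1 A hA
  omega

end

end Pool.Agent.W689.Ka
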