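import Pool.Agent.W689.Ka.Path

/-!
Families all of whose facets have degree exactly `m` and which contain no copy of a tight tree with
`m + 1` edges (not all through one facet) are unions of cliques on `r + m - 1` points.
-/

set_option autoImplicit false

open Finset

namespace Pool.Agent.W689.Ka

section

variable {α : Type*} [DecidableEq α] [Fintype α]

/-- a partial embedding of a set `S` of edges of the tree -/
structure Gr (r m : ℕ) (e : ℕ → Finset ℕ) (G : Finset (Finset α)) (S : Finset ℕ) (φ : ℕ → α) :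
    Prop where
  ne : S.Nonempty
  hS : ∀ i ∈ S, i < m
  inj : Set.InjOn φ (VS e S : Set ℕ)
  mem : ∀ i ∈ S, (e i).image φ ∈ G
  cardV : (VS e S).card + 1 ≤ r + S.card

theorem Gr.step {r m : ℕ} {e : ℕ → Finset ℕ} {G : Finset (Finset α)} {S : Finset ℕ}
    {φ : ℕ → α} (hT : TightTree r m e) (hr : 1 ≤ r)
    (hd : ∀ E ∈ G, ∀ x ∈ E, m ≤ deg G (E.erase x)) (h : Gr r m e G S φ) (hlt : S.card < m) :
    ∃ j, j ∉ S ∧ ∃ φ', Gr r m e G (insert j S) φ' ∧ ∀ z ∈ VS e S, φ' z = φ z := by
  obtain ⟨i, hi, j, hj, hjS, hadj⟩ := hT.connected S h.ne h.hS hlt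
  have him := h.hS i hi
  obtain ⟨v, hv, hvi, hev⟩ := adj_split hr (hT.1 j hj) (by rw [inter_comm]; exact hadj)
  obtain ⟨x, hx, hxj, hex⟩ := adj_split hr (hT.1 i him) hadj
  set ρ := e i ∩ e j with hρ
  rw [inter_comm, ← hρ] at hev
  have hvV : v ∉ VS e S := hT.new_vertex hr h.hS h.cardV hi hj hjS hadj hv hvi
  have hsubV : ∀ k ∈ S, e k ⊆ VS e S := fun k hk z hz => mem_VS.2 ⟨k, hk, hz⟩
  have hρV : ρ ⊆ VS e S := (inter_subset_left).trans (hsubV i hi)
  have hinji : Set.InjOn φ (e i : Set ℕ) := h.inj.mono (fun z hz => hsubV i hi hz)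
  have hdeg : m ≤ deg G (ρ.image φ) := by
    rw [← hex, image_erase_of_injOn hinji hx]
    exact hd _ (h.mem i hi) _ (mem_image_of_mem _ hx)
  have hdd : (VS e S).card - ρ.card < deg G (ρ.image φ) := by
    have := h.cardV
    rw [hadj]
    omega
  obtain ⟨w, hw1, hw2, hw3⟩ := exists_new hρV hdd
  have hvk : ∀ k ∈ S, v ∉ e k := fun k hk hc => hvV (hsubV k hk hc)
  have hejins : e j = insert v ρ := by rw [← hev, insert_erase hv]
  have hVins : VS e (insert j S) = insert v (VS e S) := by
    rw [VS_insert, hejins]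
    ext z
    simp only [mem_union, mem_insert]
    constructor
    · rintro ((h1 | h1) | h1)
      · exact Or.inl h1
      · exact Or.inr (hρV h1)
      · exact Or.inr h1
    · rintro (h1 | h1)
      · exact Or.inl (Or.inl h1)
      · exact Or.inr h1
  have hne : ∀ c ∈ VS e S, Function.update φ v w c = φ c := by
    intro c hc
    apply Function.update_of_ne
    rintro rfl
    exact hvV hc
  refine ⟨j, hjS, Function.update φ v w, ⟨insert_nonempty _ _, ?_, ?_, ?_, ?_⟩, hne⟩
  · intro k hk
    rcases mem_insert.1 hk with rfl | hk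
    · exact hj
    · exact h.hS k hk
  · rw [hVins]
    intro a ha b hb hab
    rw [mem_coe, mem_insert] at ha hb
    rcases ha with rfl | ha <;> rcases hb with rfl | hb
    · rfl
    · rw [hne b hb, Function.update_self] at hab
      exact absurd (hab ▸ mem_image_of_mem φ hb) hw3
    · rw [hne a ha, Function.update_self] at hab
      exact absurd (hab ▸ mem_image_of_mem φ ha) hw3
    · rw [hne a ha, hne b hb] at hab
      exact h.inj ha hb hab
  · intro k hk
    rcases mem_insert.1 hk with rfl | hk
    · have hvρ : v ∉ ρ := fun hc => hvi (mem_inter.1 hc).1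
      rw [hejins, image_insert, Function.update_self, image_update_of_notMem hvρ]
      exact hw2
    · rw [image_update_of_notMem (hvk k hk)]
      exact h.mem k hk
  · rw [hVins, card_insert_of_notMem hvV, card_insert_of_notMem hjS]
    have := h.cardV
    omega

theorem Gr.complete {r m : ℕ} {e : ℕ → Finset ℕ} {G : Finset (Finset α)}
    (hT : TightTree r m e) (hr : 1 ≤ r)
    (hd : ∀ E ∈ G, ∀ x ∈ E, m ≤ deg G (E.erase x)) :
    ∀ d, ∀ S : Finset ℕ, ∀ φ : ℕ → α, Gr r m e G S φ → S.card + d = m →
      ∃ φ', Gr r m e G (range m) φ' ∧ ∀ z ∈ VS e S, φ' z = φ z := by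
  intro d
  induction d with
  | zero =>
    intro S φ h hc
    have : S = range m := by
      apply eq_of_subset_of_card_le
      · intro i hi; exact mem_range.2 (h.hS i hi)
      · rw [card_range]; omega
    subst this
    exact ⟨φ, h, fun z _ => rfl⟩
  | succ d ih =>
    intro S φ h hc
    obtain ⟨j, hjS, φ', h', heq⟩ := h.step hT hr hd (by omega)
    obtain ⟨φ'', h'', heq'⟩ := ih (insert j S) φ' h' (by rw [card_insert_of_notMem hjS]; omega)
    refine ⟨φ'', h'', ?_⟩
    intro z hz
    rw [heq' z (by rw [VS_insert]; exact mem_union_right _ hz), heq z hz]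

omit [Fintype α] in
theorem exists_bij2 {A : Finset ℕ} {B : Finset α} (hc : A.card = B.card) {x x' : ℕ} (hx : x ∈ A)
    (hx' : x' ∈ A) (hxx : x ≠ x') {y y' : α} (hy : y ∈ B) (hy' : y' ∈ B) (hyy : y ≠ y') :
    ∃ φ : ℕ → α, Set.InjOn φ (A : Set ℕ) ∧ A.image φ = B ∧ φ x = y ∧ φ x' = y' := by
  obtain ⟨ψ, h1, h2, h3⟩ := exists_bij hc hx hy
  have hy2 := hy'
  rw [← h2] at hy2
  obtain ⟨u, hu, hu2⟩ := mem_image.1 hy2
  have hux : u ≠ x := by
    rintro rfl
    exact hyy (h3.symm.trans hu2)
  refine ⟨ψ ∘ Equiv.swap x' u, ?_, ?_, ?_, ?_⟩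
  · have hmaps : ∀ z ∈ A, Equiv.swap x' u z ∈ A := by
      intro z hz
      by_cases h4 : z = x'
      · rw [h4, Equiv.swap_apply_left]; exact hu
      · by_cases h5 : z = u
        · rw [h5, Equiv.swap_apply_right]; exact hx'
        · rw [Equiv.swap_apply_of_ne_of_ne h4 h5]; exact hz
    intro a ha b hb hab
    have := h1 (hmaps a ha) (hmaps b hb) hab
    exact (Equiv.swap x' u).injective this
  · rw [image_comp_swap hx' hu, h2]
  · rw [Function.comp_apply, Equiv.swap_apply_of_ne_of_ne hxx hux.symm, h3]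
  · rw [Function.comp_apply, Equiv.swap_apply_left, hu2]

/-- structure of the end of a tight tree with at least two interior facets -/
theorem TightTree.end_structure {r m : ℕ} {e : ℕ → Finset ℕ} (hT : TightTree r (m + 1) e)
    (hr : 1 ≤ r) (hm : 1 ≤ m) (h2 : 2 ≤ (ridges r (m + 1) e).card) :
    ∃ v, v ∈ e m ∧ (∀ i, i < m → v ∉ e i) ∧ ∃ p, p < m ∧ ∃ j, j < m ∧
      ∃ xp ∈ e p, (e p).erase xp = (e m).erase v ∧
      ∃ x1 ∈ e p, x1 ≠ xp ∧ x1 ∉ e j ∧ (e p).erase x1 = e p ∩ e j ∧ (e p ∩ e j).card = r - 1 := by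
  obtain ⟨v, hv, hnew, q, hq, hqe, hqc⟩ := hT.parent (i := m) (by omega) (by omega)
  refine ⟨v, hv, hnew, ?_⟩
  set ρ := (e m).erase v with hρ
  have hρc : ρ.card = r - 1 := by rw [hρ, card_erase_of_mem hv, hT.1 m (by omega)]
  set S := (range (m + 1)).filter (fun i => ρ ⊆ e i) with hS
  have hmS : m ∈ S := by
    rw [hS, mem_filter, mem_range]; exact ⟨by omega, erase_subset _ _⟩
  have hSlt : ∀ i ∈ S, i < m + 1 := fun i hi => mem_range.1 (mem_filter.1 hi).1
  have hcard : S.card < m + 1 := by
    by_contra hcon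
    push Not at hcon
    have hSeq : S = range (m + 1) := by
      apply eq_of_subset_of_card_le
      · intro i hi; exact mem_range.2 (hSlt i hi)
      · rw [card_range]; exact hcon
    have hsub : ridges r (m + 1) e ⊆ {ρ} := by
      intro σ hσ
      obtain ⟨i, j, hi, hj, _, hc, rfl⟩ := mem_ridges.1 hσ
      rw [mem_singleton]
      symm
      apply eq_of_subset_of_card_le
      · have h3 : i ∈ S := by rw [hSeq]; exact mem_range.2 hi
        have h4 : j ∈ S := by rw [hSeq]; exact mem_range.2 hj
        exact subset_inter (mem_filter.1 h3).2 (mem_filter.1 h4).2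
      · rw [hc, hρc]
    have := card_le_card hsub
    rw [card_singleton] at this
    omega
  obtain ⟨p, hp, j, hj, hjS, hadj⟩ := hT.connected S ⟨m, hmS⟩ hSlt hcard
  have hρp : ρ ⊆ e p := (mem_filter.1 hp).2
  have hjm : j ≠ m := by
    rintro rfl
    exact hjS hmS
  have hj' : j < m := by omega
  have hρj : ¬ ρ ⊆ e j := by
    intro h
    exact hjS (mem_filter.2 ⟨mem_range.2 hj, h⟩)
  have hpm : p ≠ m := by
    rintro rfl
    apply hρj
    have h3 : e p ∩ e j ⊆ ρ := by
      intro z hz
      rw [mem_inter] at hz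
      rw [hρ, mem_erase]
      refine ⟨?_, hz.1⟩
      rintro rfl
      exact hnew j hj' hz.2
    have h4 : e p ∩ e j = ρ := eq_of_subset_of_card_le h3 (by rw [hadj, hρc])
    rw [← h4]; exact inter_subset_right
  have hp' : p < m := by have := hSlt p hp; omega
  have hpc := hT.1 p (by omega)
  have hex : ((e p) \ ρ).card = 1 := by
    rw [card_sdiff_of_subset hρp, hpc, hρc]; omega
  obtain ⟨xp, hxp⟩ := card_eq_one.1 hex
  have hxp' : xp ∈ e p \ ρ := by rw [hxp]; exact mem_singleton_self _
  rw [mem_sdiff] at hxp'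
  have hep : (e p).erase xp = ρ := by
    symm
    apply eq_of_subset_of_card_le
    · intro z hz
      rw [mem_erase]
      refine ⟨?_, hρp hz⟩
      rintro rfl
      exact hxp'.2 hz
    · rw [card_erase_of_mem hxp'.1, hpc, hρc]
  obtain ⟨x1, hx1, hx1j, hx1e⟩ := adj_split hr hpc hadj
  refine ⟨p, hp', j, hj', xp, hxp'.1, hep, x1, hx1, ?_, hx1j, hx1e, hadj⟩
  rintro rfl
  apply hρj
  rw [← hep, hx1e]; exact inter_subset_right

/-- The common structure of neighbourhoods. -/
theorem nb_subset {r m : ℕ} {e : ℕ → Finset ℕ} {G : Finset (Finset α)} (hr : 1 ≤ r) (hm : 1 ≤ m)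
    (hT : TightTree r (m + 1) e) (h2 : 2 ≤ (ridges r (m + 1) e).card)
    (hu : ∀ E ∈ G, E.card = r)
    (hd : ∀ E ∈ G, ∀ x ∈ E, deg G (E.erase x) = m)
    (hno : ¬ Copy (m + 1) e G) {E : Finset α} (hE : E ∈ G) {x y : α} (hx : x ∈ E)
    (hy : y ∈ E) (hxy : x ≠ y) {w : α} (hw : w ∈ nb G (E.erase y)) (hwE : w ∉ E) :
    w ∈ nb G (E.erase x) := by
  classical
  obtain ⟨v, hv, hnew, p, hp, j, hj, xp, hxp, hep, x1, hx1, hx1p, hx1j, hx1e, hadj⟩ :=
    hT.end_structure hr hm h2
  have hT' : TightTree r m e := hT.mono (by omega)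
  obtain ⟨v1, hv1, hv1p, hev1⟩ := adj_split hr (hT'.1 j hj) (by rw [inter_comm]; exact hadj)
  rw [inter_comm, ← hx1e] at hev1
  have hej : e j = insert v1 ((e p).erase x1) := by rw [← hev1, insert_erase hv1]
  obtain ⟨φ0, k1, k2, k3, k4⟩ := exists_bij2 (A := e p) (B := E) (x := xp) (x' := x1)
    (y := x) (y' := y) (by rw [hT'.1 p hp, hu E hE]) hxp hx1 hx1p.symm hx hy hxy
  have hpj : p ≠ j := by
    rintro rfl
    exact hx1j hx1
  have hV : VS e {p, j} = insert v1 (e p) := by
    ext z
    rw [mem_VS, mem_insert]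
    constructor
    · rintro ⟨i, hi, hz⟩
      rw [mem_insert, mem_singleton] at hi
      rcases hi with rfl | rfl
      · exact Or.inr hz
      · rw [hej, mem_insert] at hz
        rcases hz with h3 | h3
        · exact Or.inl h3
        · exact Or.inr (mem_of_mem_erase h3)
    · rintro (h3 | h3)
      · exact ⟨j, by simp, by rw [h3]; exact hv1⟩
      · exact ⟨p, by simp, h3⟩
  set φ1 := Function.update φ0 v1 w with hφ1
  have hne : ∀ z ∈ e p, φ1 z = φ0 z := by
    intro z hz
    apply Function.update_of_ne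
    rintro rfl
    exact hv1p hz
  have hv1w : φ1 v1 = w := Function.update_self _ _ _
  have hgr : Gr r m e G {p, j} φ1 := by
    refine ⟨⟨p, by simp⟩, ?_, ?_, ?_, ?_⟩
    · intro i hi
      rw [mem_insert, mem_singleton] at hi
      rcases hi with rfl | rfl
      · exact hp
      · exact hj
    · rw [hV]
      intro a ha b hb hab
      rw [mem_coe, mem_insert] at ha hb
      rcases ha with rfl | ha <;> rcases hb with rfl | hb
      · rfl
      · rw [hne b hb, hv1w] at hab
        exact absurd (by rw [← k2, hab]; exact mem_image_of_mem _ hb) hwE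
      · rw [hne a ha, hv1w] at hab
        exact absurd (by rw [← k2, ← hab]; exact mem_image_of_mem _ ha) hwE
      · rw [hne a ha, hne b hb] at hab
        exact k1 ha hb hab
    · intro i hi
      rw [mem_insert, mem_singleton] at hi
      rcases hi with rfl | rfl
      · rw [image_congr (show Set.EqOn φ1 φ0 (e i) from fun z hz => hne z hz), k2]
        exact hE
      · rw [hej, image_insert, hv1w, image_congr (show Set.EqOn φ1 φ0 ((e p).erase x1) from
          fun z hz => hne z (mem_of_mem_erase hz)), image_erase_of_injOn k1 hx1, k2, k4]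
        exact (mem_nb.1 hw).2
    · rw [hV, card_insert_of_notMem hv1p, hT'.1 p hp, card_pair hpj]
  have hm2 : ({p, j} : Finset ℕ).card ≤ m := by
    have : ({p, j} : Finset ℕ) ⊆ range m := by
      intro i hi
      rw [mem_insert, mem_singleton] at hi
      rcases hi with rfl | rfl
      · exact mem_range.2 hp
      · exact mem_range.2 hj
    have := card_le_card this
    rwa [card_range] at this
  obtain ⟨φ, hφ, hφe⟩ := Gr.complete hT' hr (fun E hE x hx => (hd E hE x hx).ge)
    (m - ({p, j} : Finset ℕ).card) {p, j} φ1 hgr (by omega)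
  have hφp : ∀ z ∈ e p, φ z = φ0 z := by
    intro z hz
    rw [hφe z (by rw [hV]; exact mem_insert_of_mem hz), hne z hz]
  have hφv : φ v1 = w := by
    rw [hφe v1 (by rw [hV]; exact mem_insert_self _ _), hv1w]
  set ρ := (e m).erase v with hρ
  have hρV : ρ ⊆ VS e (range m) := by
    rw [← hep]
    exact fun z hz => mem_VS.2 ⟨p, mem_range.2 hp, mem_of_mem_erase hz⟩
  have hρim : ρ.image φ = E.erase x := by
    rw [← hep, image_congr (show Set.EqOn φ φ0 ((e p).erase xp) from
      fun z hz => hφp z (mem_of_mem_erase hz)), image_erase_of_injOn k1 hxp, k2, k3]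
  have hρc : ρ.card = r - 1 := by rw [hρ, card_erase_of_mem hv, hT.1 m (by omega)]
  have hvV : v ∉ VS e (range m) := by
    intro hc
    obtain ⟨i, hi, hvi⟩ := mem_VS.1 hc
    exact hnew i (mem_range.1 hi) hvi
  by_contra hcon
  have hv1V : v1 ∈ VS e (range m) := mem_VS.2 ⟨j, mem_range.2 hj, hv1⟩
  have hv1ρ : v1 ∉ ρ := by
    rw [← hep]
    exact fun hc => hv1p (mem_of_mem_erase hc)
  have hsub : nb G (E.erase x) ⊆ ((VS e (range m) \ ρ).erase v1).image φ := by
    intro u hu'
    rw [mem_nb] at hu'
    have huV : u ∈ (VS e (range m)).image φ := by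
      by_contra huV
      apply hno
      have hne' : ∀ c ∈ VS e (range m), Function.update φ v u c = φ c := by
        intro c hc
        apply Function.update_of_ne
        rintro rfl
        exact hvV hc
      have hem : e m = insert v ρ := by rw [hρ, insert_erase hv]
      refine ⟨Function.update φ v u, ?_, ?_⟩
      · have hVall : ∀ z, (∃ i, i < m + 1 ∧ z ∈ e i) → z = v ∨ z ∈ VS e (range m) := by
          rintro z ⟨i, hi, hz⟩
          by_cases him : i = m
          · rw [him, hem, mem_insert] at hz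
            rcases hz with hz | hz
            · exact Or.inl hz
            · exact Or.inr (hρV hz)
          · exact Or.inr (mem_VS.2 ⟨i, mem_range.2 (by omega), hz⟩)
        intro a ha b hb hab
        rcases hVall a ha with rfl | ha <;> rcases hVall b hb with rfl | hb
        · rfl
        · rw [hne' b hb, Function.update_self] at hab
          exact absurd (hab ▸ mem_image_of_mem φ hb) huV
        · rw [hne' a ha, Function.update_self] at hab
          exact absurd (hab ▸ mem_image_of_mem φ ha) huV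
        · rw [hne' a ha, hne' b hb] at hab
          exact hφ.inj ha hb hab
      · intro i hi
        by_cases him : i = m
        · rw [him, hem, image_insert, Function.update_self,
            image_update_of_notMem (notMem_erase _ _), hρim]
          exact hu'.2
        · have hiS : i ∈ range m := mem_range.2 (by omega)
          rw [image_update_of_notMem (fun hc => hvV (mem_VS.2 ⟨i, hiS, hc⟩))]
          exact hφ.mem i hiS
    obtain ⟨c, hc, hcu⟩ := mem_image.1 huV
    refine mem_image.2 ⟨c, ?_, hcu⟩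
    rw [mem_erase, mem_sdiff]
    refine ⟨?_, hc, ?_⟩
    · rintro rfl
      apply hcon
      rw [← hφv, hcu, mem_nb]
      exact hu'
    · intro hcρ
      apply hu'.1
      rw [← hρim, ← hcu]
      exact mem_image_of_mem _ hcρ
  have h5 := (card_le_card hsub).trans card_image_le
  rw [card_erase_of_mem (mem_sdiff.2 ⟨hv1V, hv1ρ⟩), card_sdiff_of_subset hρV, hρc] at h5
  have h6 := hd E hE x hx
  unfold deg at h6
  have h7 := hφ.cardV
  rw [card_range] at h7
  omega

/-- the clique of an edge -/
def clq (G : Finset (Finset α)) (E : Finset α) : Finset α := E ∪ E.biUnion (fun x => nb G (E.erase x))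

/-- hypotheses of this section -/
structure Reg (r m : ℕ) (G : Finset (Finset α)) : Prop where
  hm : 1 ≤ m
  hr : 1 ≤ r
  hu : ∀ E ∈ G, E.card = r
  hd : ∀ E ∈ G, ∀ x ∈ E, deg G (E.erase x) = m
  hq : ∀ E ∈ G, ∀ x ∈ E, ∀ y ∈ E, x ≠ y → ∀ w ∈ nb G (E.erase y), w ∉ E → w ∈ nb G (E.erase x)

theorem Reg.clq_eq {r m : ℕ} {G : Finset (Finset α)} (h : Reg r m G) {E : Finset α} (hE : E ∈ G)
    {x : α} (hx : x ∈ E) : clq G E = E ∪ nb G (E.erase x) := by
  unfold clq
  ext z
  simp only [mem_union, mem_biUnion]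
  constructor
  · rintro (h1 | ⟨y, hy, hz⟩)
    · exact Or.inl h1
    · by_cases hxy : x = y
      · rw [hxy]; exact Or.inr hz
      · by_cases hzE : z ∈ E
        · exact Or.inl hzE
        · exact Or.inr (h.hq E hE x hx y hy hxy z hz hzE)
  · rintro (h1 | h1)
    · exact Or.inl h1
    · exact Or.inr ⟨x, hx, h1⟩

theorem Reg.clq_card {r m : ℕ} {G : Finset (Finset α)} (h : Reg r m G) {E : Finset α}
    (hE : E ∈ G) : (clq G E).card + 1 = r + m := by
  have hc := h.hu E hE
  have hne : E.Nonempty := by
    rw [← card_pos, hc]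
    exact h.hr
  obtain ⟨x, hx⟩ := hne
  rw [h.clq_eq hE hx]
  have hint : E ∩ nb G (E.erase x) = {x} := by
    ext z
    rw [mem_inter, mem_nb, mem_singleton, mem_erase]
    constructor
    · rintro ⟨h1, h2, -⟩
      by_contra hne
      exact h2 ⟨hne, h1⟩
    · rintro rfl
      refine ⟨hx, fun hc => hc.1 rfl, ?_⟩
      rw [insert_erase hx]; exact hE
  have h1 := card_union_add_card_inter E (nb G (E.erase x))
  have h2 := h.hd E hE x hx
  unfold deg at h2
  rw [hint, card_singleton, h2, hc] at h1
  exact h1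

theorem Reg.clq_rot {r m : ℕ} {G : Finset (Finset α)} (h : Reg r m G) {E : Finset α} (hE : E ∈ G)
    {x : α} (hx : x ∈ E) {v : α} (hv : v ∈ nb G (E.erase x)) :
    clq G (insert v (E.erase x)) = clq G E := by
  have hv' := mem_nb.1 hv
  rw [h.clq_eq hE hx, h.clq_eq hv'.2 (mem_insert_self v _), erase_insert hv'.1]
  have hxnb : x ∈ nb G (E.erase x) := by
    rw [mem_nb]
    exact ⟨notMem_erase _ _, by rw [insert_erase hx]; exact hE⟩
  ext z
  simp only [mem_union, mem_insert, mem_erase]
  constructor
  · rintro ((h1 | h1) | h1)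
    · rw [h1]; exact Or.inr hv
    · exact Or.inl h1.2
    · exact Or.inr h1
  · rintro (h1 | h1)
    · by_cases hzx : z = x
      · rw [hzx]; exact Or.inr hxnb
      · exact Or.inl (Or.inr ⟨hzx, h1⟩)
    · exact Or.inr h1

theorem Reg.complete {r m : ℕ} {G : Finset (Finset α)} (h : Reg r m G) {F : Finset α}
    (hF : F.card = r) : ∀ k, ∀ E ∈ G, F ⊆ clq G E → (F \ E).card = k →
      F ∈ G ∧ clq G F = clq G E := by
  intro k
  induction k with
  | zero =>
    intro E hE _ hk
    have h1 : F \ E = ∅ := card_eq_zero.1 hk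
    have h2 : F ⊆ E := sdiff_eq_empty_iff_subset.1 h1
    have h3 : F = E := eq_of_subset_of_card_le h2 (by rw [h.hu E hE, hF])
    rw [h3]
    exact ⟨hE, rfl⟩
  | succ k ih =>
    intro E hE hsub hk
    have hne : (F \ E).Nonempty := by rw [← card_pos]; omega
    obtain ⟨v, hv⟩ := hne
    have hcard : (E \ F).card = (F \ E).card := by
      have h1 := card_sdiff_add_card_inter E F
      have h2 := card_sdiff_add_card_inter F E
      rw [inter_comm] at h2
      have := h.hu E hE
      omega
    have hne2 : (E \ F).Nonempty := by rw [← card_pos]; omega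
    obtain ⟨x, hx⟩ := hne2
    rw [mem_sdiff] at hv hx
    have hvQ : v ∈ nb G (E.erase x) := by
      have := hsub hv.1
      rw [h.clq_eq hE hx.1, mem_union] at this
      rcases this with h1 | h1
      · exact absurd h1 hv.2
      · exact h1
    have hrot := h.clq_rot hE hx.1 hvQ
    have hE' := (mem_nb.1 hvQ).2
    have hstep : (F \ insert v (E.erase x)).card = k := by
      have : F \ insert v (E.erase x) = (F \ E).erase v := by
        ext z
        simp only [mem_sdiff, mem_insert, mem_erase]
        constructor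
        · rintro ⟨h1, h2⟩
          refine ⟨fun h3 => h2 (Or.inl h3), h1, ?_⟩
          intro h3
          apply h2
          refine Or.inr ⟨?_, h3⟩
          rintro rfl
          exact hx.2 h1
        · rintro ⟨h1, h2, h3⟩
          refine ⟨h2, ?_⟩
          rintro (h4 | h4)
          · exact h1 h4
          · exact h3 h4.2
      rw [this, card_erase_of_mem (mem_sdiff.2 hv), hk]
      rfl
    obtain ⟨r1, r2⟩ := ih _ hE' (by rw [hrot]; exact hsub) hstep
    exact ⟨r1, r2.trans hrot⟩

/-- the structure theorem -/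
theorem Reg.structure {r m : ℕ} {G : Finset (Finset α)} (h : Reg r m G) :
    ∃ Q : Finset (Finset α), (∀ A ∈ Q, A.card + 1 = r + m) ∧
      (∀ A ∈ Q, ∀ B ∈ Q, A ≠ B → (A ∩ B).card < r - 1) ∧
      G = Q.biUnion (fun A => A.powersetCard r) := by
  classical
  refine ⟨G.image (clq G), ?_, ?_, ?_⟩
  · intro A hA
    obtain ⟨E, hE, rfl⟩ := mem_image.1 hA
    exact h.clq_card hE
  · intro A hA B hB hAB
    obtain ⟨E, hE, rfl⟩ := mem_image.1 hA
    obtain ⟨E', hE', rfl⟩ := mem_image.1 hB
    by_contra hcon
    push Not at hcon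
    apply hAB
    obtain ⟨f, hf1, hf2⟩ := exists_subset_card_eq hcon
    have hfA : f ⊆ clq G E := hf1.trans inter_subset_left
    have hfB : f ⊆ clq G E' := hf1.trans inter_subset_right
    have ext : ∀ E ∈ G, f ⊆ clq G E → clq G E = f ∪ nb G f := by
      intro E hE hfE
      have hc := h.clq_card hE
      have hne : (clq G E \ f).Nonempty := by
        rw [← card_pos, card_sdiff_of_subset hfE, hf2]
        have := h.hr
        have := h.hm
        omega
      obtain ⟨a, ha⟩ := hne
      rw [mem_sdiff] at ha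
      have hFc : (insert a f).card = r := by
        rw [card_insert_of_notMem ha.2, hf2]
        have := h.hr
        omega
      obtain ⟨r1, r2⟩ := h.complete hFc _ E hE (insert_subset ha.1 hfE) rfl
      rw [← r2, h.clq_eq r1 (mem_insert_self a f), erase_insert ha.2]
      have hanb : a ∈ nb G f := mem_nb.2 ⟨ha.2, r1⟩
      ext z
      simp only [mem_union, mem_insert]
      constructor
      · rintro ((h1 | h1) | h1)
        · rw [h1]; exact Or.inr hanb
        · exact Or.inl h1
        · exact Or.inr h1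
      · rintro (h1 | h1)
        · exact Or.inl (Or.inr h1)
        · exact Or.inr h1
    rw [ext E hE hfA, ext E' hE' hfB]
  · ext F
    simp only [mem_biUnion, mem_image, mem_powersetCard]
    constructor
    · intro hF
      exact ⟨clq G F, ⟨F, hF, rfl⟩, subset_union_left, h.hu F hF⟩
    · rintro ⟨A, ⟨E, hE, rfl⟩, h1, h2⟩
      exact (h.complete h2 _ E hE h1 rfl).1

end

end Pool.Agent.W689.Ka
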