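import Pool.Agent.W689.Ka.Eq

/-!
Final statements.
-/

set_option autoImplicit false

open Finset

namespace Pool.Agent.W689.Ka

theorem hasTightPath_iff {α : Type*} [DecidableEq α] {r t : ℕ} (hr : 1 ≤ r)
    (ht : 1 ≤ t) (H : Finset (Finset α)) : HasTightPath r t H ↔ Copy t (win r) H := by
  have hset : {x : ℕ | ∃ i, i < t ∧ x ∈ win r i} = Set.Iio (r + t - 1) := by
    ext x
    simp only [Set.mem_ofPred_eq, Set.mem_Iio, mem_win]
    constructor
    · rintro ⟨i, h1, h2, h3⟩; omega
    · intro h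
      by_cases hx : x < r
      · exact ⟨0, by omega, by omega, by omega⟩
      · exact ⟨x + 1 - r, by omega, by omega, by omega⟩
  unfold HasTightPath Copy
  rw [hset]
  rfl

theorem ridges_win {r t : ℕ} (hr : 2 ≤ r) :
    (ridges r t (win r)).card = t - 1 := by
  apply le_antisymm ((tightTree_win (by omega) t).ridges_card (by omega))
  have hinj : Set.InjOn (fun i => Finset.Ico (i + 1) (i + r)) (range (t - 1) : Set ℕ) := by
    intro a _ b _ hab
    have hab' : Finset.Ico (a + 1) (a + r) = Finset.Ico (b + 1) (b + r) := hab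
    have h1 : a + 1 ∈ Finset.Ico (b + 1) (b + r) := by
      rw [← hab', Finset.mem_Ico]; omega
    have h2 : b + 1 ∈ Finset.Ico (a + 1) (a + r) := by
      rw [hab', Finset.mem_Ico]; omega
    rw [Finset.mem_Ico] at h1 h2
    omega
  have hsub : (range (t - 1)).image (fun i => Finset.Ico (i + 1) (i + r)) ⊆
      ridges r t (win r) := by
    intro σ hσ
    obtain ⟨i, hi, rfl⟩ := mem_image.1 hσ
    rw [mem_range] at hi
    have hint : win r i ∩ win r (i + 1) = Finset.Ico (i + 1) (i + r) := by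
      ext z
      rw [mem_inter, mem_win, mem_win, Finset.mem_Ico]; omega
    rw [mem_ridges]
    refine ⟨i, i + 1, by omega, by omega, by omega, ?_, hint⟩
    rw [hint, Nat.card_Ico]; omega
  have := card_le_card hsub
  rwa [card_image_of_injOn hinj, card_range] at this

/-- General bound for free tight trees. -/
theorem tree_bounds {r t : ℕ} (hr : 1 ≤ r) (ht : 3 ≤ t) {e : ℕ → Finset ℕ}
    (hT : TightTree r t e) (hF : Free t e) {n : ℕ} (H : Finset (Finset (Fin n)))
    (hu : ∀ h ∈ H, h.card = r) (hno : ¬ Copy t e H) :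
    min (((r : ℝ) - (ridges r t e).card + 1) / ((t : ℝ) - 2)) ((r : ℝ) / ((t : ℝ) - 1))
        * (H.card : ℝ) ≤ (H.shadow.card : ℝ) ∧
      (((ridges r t e).card - 1) * (t - 1) ≤ r →
        (H.card : ℝ) ≤ ((t : ℝ) - 1) / r * (H.shadow.card : ℝ) ∧
        (H.card : ℝ) ≤ ((t : ℝ) - 1) / r * ((n.choose (r - 1) : ℕ) : ℝ)) := by
  have h1 := free_tree_bound ht hr hT hF H hu hno
  refine ⟨h1, fun hg => ⟨exact_form hr ht hg h1, ?_⟩⟩
  refine (exact_form hr ht hg h1).trans ?_
  have htr : (3 : ℝ) ≤ t := by exact_mod_cast ht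
  apply mul_le_mul_of_nonneg_left
  · exact_mod_cast shadow_card_le H hu
  · apply div_nonneg
    · linarith
    · positivity

theorem path_bound {r t : ℕ} (ht : 3 ≤ t) (htr : t ≤ r + 1) {n : ℕ}
    (H : Finset (Finset (Fin n))) (hu : ∀ h ∈ H, h.card = r) (hno : ¬ HasTightPath r t H) :
    (H.card : ℝ) ≤ max (((t : ℝ) - 1) / r) (((t : ℝ) - 2) / ((r : ℝ) - t + 2))
      * (H.shadow.card : ℝ) := by
  have hr : 1 ≤ r := by omega
  rw [hasTightPath_iff hr (by omega)] at hno
  have hT := tightTree_win hr t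
  have hF : Free t (win r) := free_win (by omega) htr
  have h1 := free_tree_bound ht hr hT hF H hu hno
  have h3 := quot_form (g := t - 1) (N := (H.card : ℝ)) (M := (H.shadow.card : ℝ)) hr ht
    (by omega) (Nat.cast_nonneg _) (by rw [ridges_win (by omega)] at h1; exact h1)
  have h4 : ((r : ℝ) - ((t - 1 : ℕ) : ℝ) + 1) = (r : ℝ) - t + 2 := by
    rw [Nat.cast_sub (by omega)]; push_cast; ring
  rw [h4] at h3
  exact h3

theorem pos_of_two_ridges {r t : ℕ} {e : ℕ → Finset ℕ} (ht : 3 ≤ t)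
    (h2 : 2 ≤ (ridges r t e).card) (htr : ((ridges r t e).card - 1) * (t - 1) < r) : t ≤ r := by
  have : 1 * (t - 1) ≤ ((ridges r t e).card - 1) * (t - 1) := Nat.mul_le_mul_right _ (by omega)
  omega

/-- The extremal families. -/
theorem tree_extremal {r t : ℕ} (ht : 3 ≤ t) {e : ℕ → Finset ℕ}
    (hT : TightTree r t e) (hF : Free t e) (h2 : 2 ≤ (ridges r t e).card)
    (htr : ((ridges r t e).card - 1) * (t - 1) < r) {n : ℕ}
    (H : Finset (Finset (Fin n))) :
    ((∀ h ∈ H, h.card = r) ∧ ¬ Copy t e H ∧ r * H.card = (t - 1) * H.shadow.card) ↔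
    ∃ Q : Finset (Finset (Fin n)), (∀ A ∈ Q, A.card = r + t - 2) ∧
      (∀ A ∈ Q, ∀ B ∈ Q, A ≠ B → (A ∩ B).card ≤ r - 2) ∧
      H = Q.biUnion (fun A => A.powersetCard r) := by
  have htr' : t ≤ r := pos_of_two_ridges ht h2 htr
  have hr : 1 ≤ r := by omega
  obtain ⟨D, rfl⟩ : ∃ D, t = D + 2 := ⟨t - 2, by omega⟩
  have hD : 1 ≤ D := by omega
  constructor
  · rintro ⟨hu, hno, heq⟩
    have hreg := regular_of_eq hD hr hT hF htr (by omega) H hu hno
      (by rw [heq]; congr 1)
    have hR : Reg r (D + 1) H := ⟨by omega, hr, hu, hreg, by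
      intro E hE x hx y hy hxy w hw hwE
      exact nb_subset (m := D + 1) hr (by omega) hT h2 hu hreg hno hE hx hy hxy hw hwE⟩
    obtain ⟨Q, h5, h6, h7⟩ := hR.structure
    refine ⟨Q, ?_, ?_, h7⟩
    · intro A hA
      have := h5 A hA
      omega
    · intro A hA B hB hAB
      have := h6 A hA B hB hAB
      omega
  · rintro ⟨Q, h1, h2, rfl⟩
    have h1' : ∀ A ∈ Q, A.card + 1 = r + (D + 1) := by
      intro A hA
      have := h1 A hA
      omega
    have h2' : ∀ A ∈ Q, ∀ B ∈ Q, A ≠ B → (A ∩ B).card < r - 1 := by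
      intro A hA B hB hAB
      have := h2 A hA B hB hAB
      omega
    refine ⟨?_, union_free (m := D + 1) hT h1' h2', ?_⟩
    · intro E hE
      rw [mem_biUnion] at hE
      obtain ⟨A, _, h3⟩ := hE
      exact (mem_powersetCard.1 h3).2
    · have := union_count h1' h2' hr
      rw [this]
      congr 1

/-- The bound `(t-1)/r * C(n, r-1)` is attained exactly when a Steiner system
`S(r-1, r+t-2, n)` exists. -/
theorem tree_steiner {r t : ℕ} (ht : 3 ≤ t) {e : ℕ → Finset ℕ}
    (hT : TightTree r t e) (hF : Free t e) (h2 : 2 ≤ (ridges r t e).card)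
    (htr : ((ridges r t e).card - 1) * (t - 1) < r) (n : ℕ) :
    (∃ H : Finset (Finset (Fin n)), (∀ h ∈ H, h.card = r) ∧ ¬ Copy t e H ∧
      r * H.card = (t - 1) * n.choose (r - 1)) ↔
    ∃ Q : Finset (Finset (Fin n)), (∀ A ∈ Q, A.card = r + t - 2) ∧
      ∀ S : Finset (Fin n), S.card = r - 1 → ∃! A, A ∈ Q ∧ S ⊆ A := by
  have htr' : t ≤ r := pos_of_two_ridges ht h2 htr
  have hr : 1 ≤ r := by omega
  constructor
  · rintro ⟨H, hu, hno, heq⟩
    have h1 : (H.card : ℝ) ≤ ((t : ℝ) - 1) / r * (H.shadow.card : ℝ) :=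
      ((tree_bounds hr ht hT hF H hu hno).2 htr.le).1
    have h2' := shadow_card_le H hu
    have h3 : r * H.card ≤ (t - 1) * H.shadow.card := by
      have hrr : (0 : ℝ) < r := by exact_mod_cast hr
      have h4 : (r : ℝ) * H.card ≤ ((t : ℝ) - 1) * H.shadow.card := by
        rw [div_mul_eq_mul_div, le_div_iff₀ hrr, mul_comm] at h1
        exact h1
      have h5 : ((t - 1 : ℕ) : ℝ) = (t : ℝ) - 1 := by
        rw [Nat.cast_sub (by omega)]; simp
      rw [← h5] at h4
      exact_mod_cast h4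
    have h6 : H.shadow.card = n.choose (r - 1) := by
      apply le_antisymm h2'
      have h7 : (t - 1) * n.choose (r - 1) ≤ (t - 1) * H.shadow.card := heq ▸ h3
      exact Nat.le_of_mul_le_mul_left h7 (by omega)
    obtain ⟨Q, q1, q2, q3⟩ := (tree_extremal ht hT hF h2 htr H).1 ⟨hu, hno, by rw [heq, h6]⟩
    refine ⟨Q, q1, ?_⟩
    intro S hS
    have hSsh : S ∈ H.shadow := by
      have h8 : H.shadow ⊆ (univ : Finset (Fin n)).powersetCard (r - 1) := by
        intro f hf
        obtain ⟨s, hs, a, ha, rfl⟩ := mem_shadow_iff.1 hf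
        rw [mem_powersetCard]
        exact ⟨subset_univ _, by rw [card_erase_of_mem ha, hu s hs]⟩
      have h9 : H.shadow = (univ : Finset (Fin n)).powersetCard (r - 1) := by
        apply eq_of_subset_of_card_le h8
        rw [card_powersetCard, card_univ, Fintype.card_fin, h6]
      rw [h9, mem_powersetCard]
      exact ⟨subset_univ _, hS⟩
    obtain ⟨E, hE, x, hx, rfl⟩ := mem_shadow_iff.1 hSsh
    rw [q3, mem_biUnion] at hE
    obtain ⟨A, hA, hEA⟩ := hE
    rw [mem_powersetCard] at hEA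
    refine ⟨A, ⟨hA, (erase_subset _ _).trans hEA.1⟩, ?_⟩
    rintro B ⟨hB, hSB⟩
    by_contra hne
    have h10 := q2 A hA B hB (fun h => hne h.symm)
    have h11 := card_le_card (subset_inter ((erase_subset x E).trans hEA.1) hSB)
    omega
  · rintro ⟨Q, q1, q2⟩
    have q3 : ∀ A ∈ Q, ∀ B ∈ Q, A ≠ B → (A ∩ B).card ≤ r - 2 := by
      intro A hA B hB hAB
      by_contra hcon
      push Not at hcon
      have : r - 1 ≤ (A ∩ B).card := by omega
      obtain ⟨S, hS1, hS2⟩ := exists_subset_card_eq this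
      obtain ⟨C, -, hC⟩ := q2 S hS2
      exact hAB ((hC A ⟨hA, hS1.trans inter_subset_left⟩).trans
        (hC B ⟨hB, hS1.trans inter_subset_right⟩).symm)
    obtain ⟨hu, hno, heq⟩ := (tree_extremal ht hT hF h2 htr
      (Q.biUnion (fun A => A.powersetCard r))).2 ⟨Q, q1, q3, rfl⟩
    refine ⟨_, hu, hno, ?_⟩
    rw [heq]
    congr 1
    apply le_antisymm (shadow_card_le _ hu)
    have h1 : (univ : Finset (Fin n)).powersetCard (r - 1) ⊆
        (Q.biUnion (fun A => A.powersetCard r)).shadow := by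
      intro S hS
      rw [mem_powersetCard] at hS
      obtain ⟨A, ⟨hA, hSA⟩, -⟩ := q2 S hS.2
      have hlt : S.card < A.card := by
        rw [hS.2, q1 A hA]; omega
      obtain ⟨a, ha, haS⟩ := exists_mem_notMem_of_card_lt_card hlt
      rw [mem_shadow_iff_insert_mem]
      refine ⟨a, haS, ?_⟩
      rw [mem_biUnion]
      refine ⟨A, hA, ?_⟩
      rw [mem_powersetCard]
      refine ⟨insert_subset ha hSA, ?_⟩
      rw [card_insert_of_notMem haS, hS.2]
      omega
    have h2 := card_le_card h1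
    rwa [card_powersetCard, card_univ, Fintype.card_fin] at h2

end Pool.Agent.W689.Ka
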