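import Pool.Agent.W689.Ka.Emb

/-!
Kalai's conjecture for free tight trees: assembly.
-/

set_option autoImplicit false

open Finset

namespace Pool.Agent.W689.Ka

variable {α : Type*} [DecidableEq α] [Fintype α]

omit [Fintype α] in
theorem image_erase_of_injOn {A : Finset ℕ} {φ : ℕ → α} (h : Set.InjOn φ (A : Set ℕ)) {x : ℕ}
    (hx : x ∈ A) : (A.erase x).image φ = (A.image φ).erase (φ x) := by
  ext z
  simp only [mem_image, mem_erase]
  constructor
  · rintro ⟨u, ⟨hu1, hu2⟩, rfl⟩
    refine ⟨?_, u, hu2, rfl⟩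
    intro hc
    exact hu1 (h hu2 hx hc)
  · rintro ⟨h1, u, hu, rfl⟩
    refine ⟨u, ⟨?_, hu⟩, rfl⟩
    rintro rfl
    exact h1 rfl

/-- one more edge can be embedded -/
theorem St.grow {r m : ℕ} {e : ℕ → Finset ℕ} {G : Finset (Finset α)} {p xp : ℕ} {S : Finset ℕ}
    {φ : ℕ → α} (hT : TightTree r (m + 1) e) (hF : Free (m + 1) e) (hr : 1 ≤ r)
    (hxp : xp ∈ e p) (hxm : xp ∉ e m) (hpm : (e p).erase xp ⊆ e m)
    (hG : ∀ E ∈ G, (ridges r (m + 1) e).card ≤
      (E.filter (fun x => m ≤ deg G (E.erase x))).card)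
    (h : St r m e G p xp S φ) (hlt : S.card < m) :
    ∃ j, j ∉ S ∧ ∃ φ', St r m e G p xp (insert j S) φ' := by
  have hT' : TightTree r m e := hT.mono (by omega)
  obtain ⟨i, hi, j, hj, hjS, hadj⟩ := hT'.connected S ⟨p, h.hp⟩ h.hS hlt
  refine ⟨j, hjS, ?_⟩
  have hpm' : p < m := h.hS p h.hp
  have him : i < m := h.hS i hi
  by_cases hop : e i ∩ e j ∈ opened r e p xp S
  · refine h.step hT' hr hi hj hjS hadj ?_
    rw [mem_opened] at hop
    rcases hop with h1 | ⟨a, ha, b, hb, hab, hc, h3⟩
    · rw [h1]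
      exact le_trans (by omega) h.res
    · rw [← h3]
      exact h.big a ha b hb hab hc
  · obtain ⟨x, hx, hxj, hex⟩ := adj_split hr (hT'.1 i him) hadj
    have hxc : x ∈ core e p xp S := by
      rw [mem_core]
      have hall : ∀ k ∈ S, x ∈ e k := by
        by_contra hcon
        push Not at hcon
        obtain ⟨k, hk, hxk⟩ := hcon
        obtain ⟨a, ha, b, hb, h1, h2, h3⟩ := h.lost x (mem_VS.2 ⟨i, hi, hx⟩) k hk hxk
        have hai : i = a := by
          refine hF x i j a b (by omega) (by omega) ?_ ?_ hx hxj ?_ h1 h2 h3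
          · have := h.hS a ha; omega
          · have := h.hS b hb; omega
          · rw [hex]; exact inter_subset_right
        subst hai
        apply hop
        rw [mem_opened]
        right
        have hib : e i ∩ e b = e i ∩ e j := by
          rw [← hex]
          ext z
          simp only [mem_inter, mem_erase]
          constructor
          · rintro ⟨h4, h5⟩
            refine ⟨?_, h4⟩
            rintro rfl
            exact h2 h5
          · rintro ⟨h4, h5⟩
            exact ⟨h5, h3 (mem_erase.2 ⟨h4, h5⟩)⟩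
        refine ⟨i, ha, b, hb, ?_, ?_, hib⟩
        · rintro rfl
          exact h2 h1
        · rw [hib]; exact hadj
      refine ⟨hall p h.hp, ?_, hall⟩
      rintro rfl
      have hip : i = p := by
        refine hF x i j p m (by omega) (by omega) (by omega) (by omega) hx hxj ?_ hxp hxm hpm
        rw [hex]; exact inter_subset_right
      subst hip
      apply hop
      rw [mem_opened, hex]
      exact Or.inl rfl
    -- counting
    have hcsub : core e p xp S ⊆ e i := fun z hz => (mem_core.1 hz).2.2 i hi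
    have hB : (e i \ core e p xp S).card ≤ (opened r e p xp S).card := by
      rw [card_sdiff_of_subset hcsub, hT'.1 i him]
      have := h.cnt
      omega
    have hopsub : opened r e p xp S ⊆ ridges r (m + 1) e := by
      intro σ hσ
      rw [mem_opened] at hσ
      rw [mem_ridges]
      rcases hσ with h1 | ⟨a, ha, b, hb, hab, hc, h3⟩
      · have h2 : e p ∩ e m = (e p).erase xp := by
          ext z
          simp only [mem_inter, mem_erase]
          constructor
          · rintro ⟨h4, h5⟩
            refine ⟨?_, h4⟩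
            rintro rfl
            exact hxm h5
          · rintro ⟨h4, h5⟩
            exact ⟨h5, hpm (mem_erase.2 ⟨h4, h5⟩)⟩
        refine ⟨p, m, by omega, by omega, by omega, ?_, ?_⟩
        · rw [h2, card_erase_of_mem hxp, hT'.1 p hpm']
        · rw [h1, h2]
      · have h4 := h.hS a ha
        have h5 := h.hS b hb
        exact ⟨a, b, by omega, by omega, hab, hc, h3⟩
    have hρr : e i ∩ e j ∈ ridges r (m + 1) e := by
      rw [mem_ridges]
      refine ⟨i, j, by omega, by omega, ?_, hadj, rfl⟩
      rintro rfl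
      exact hjS hi
    have hlt2 : (opened r e p xp S).card < (ridges r (m + 1) e).card := by
      apply card_lt_card
      rw [Finset.ssubset_iff_of_subset hopsub]
      exact ⟨_, hρr, hop⟩
    have hGi := hG _ (h.mem i hi)
    have hex2 : ∃ x' ∈ ((e i).image φ).filter (fun x => m ≤ deg G (((e i).image φ).erase x)),
        x' ∉ (e i \ core e p xp S).image φ := by
      by_contra hcon
      push Not at hcon
      have h1 := card_le_card (show
        ((e i).image φ).filter (fun x => m ≤ deg G (((e i).image φ).erase x)) ⊆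
          (e i \ core e p xp S).image φ from hcon)
      have h2 : ((e i \ core e p xp S).image φ).card ≤ _ := card_image_le
      omega
    obtain ⟨x', hx'1, hx'2⟩ := hex2
    obtain ⟨hx'3, hx'4⟩ := mem_filter.1 hx'1
    obtain ⟨y, hy, rfl⟩ := mem_image.1 hx'3
    have hyc : y ∈ core e p xp S := by
      by_contra hcon
      exact hx'2 (mem_image_of_mem _ (mem_sdiff.2 ⟨hy, hcon⟩))
    have hsw := h.swap hxc hyc
    refine hsw.step hT' hr hi hj hjS hadj ?_
    have hinj : Set.InjOn (φ ∘ Equiv.swap x y) (e i : Set ℕ) :=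
      hsw.inj.mono (fun z hz => mem_coe.2 (mem_VS.2 ⟨i, hi, hz⟩))
    rw [← hex, image_erase_of_injOn hinj hx, image_comp_swap hx hy]
    simpa using hx'4

/-- all edges but the last one can be embedded -/
theorem St.complete {r m : ℕ} {e : ℕ → Finset ℕ} {G : Finset (Finset α)} {p xp : ℕ}
    (hT : TightTree r (m + 1) e) (hF : Free (m + 1) e) (hr : 1 ≤ r)
    (hxp : xp ∈ e p) (hxm : xp ∉ e m) (hpm : (e p).erase xp ⊆ e m)
    (hG : ∀ E ∈ G, (ridges r (m + 1) e).card ≤
      (E.filter (fun x => m ≤ deg G (E.erase x))).card) :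
    ∀ d, ∀ S : Finset ℕ, ∀ φ : ℕ → α, St r m e G p xp S φ → S.card + d = m →
      ∃ φ', St r m e G p xp (range m) φ' := by
  intro d
  induction d with
  | zero =>
    intro S φ h hc
    have : S = range m := by
      apply eq_of_subset_of_card_le
      · intro i hi; exact mem_range.2 (h.hS i hi)
      · rw [card_range]; omega
    subst this
    exact ⟨φ, h⟩
  | succ d ih =>
    intro S φ h hc
    obtain ⟨j, hjS, φ', h'⟩ := h.grow hT hF hr hxp hxm hpm hG (by omega)
    exact ih (insert j S) φ' h' (by rw [card_insert_of_notMem hjS]; omega)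

omit [Fintype α] in
theorem exists_bij {A : Finset ℕ} {B : Finset α} (hc : A.card = B.card) {x : ℕ} (hx : x ∈ A)
    {y : α} (hy : y ∈ B) :
    ∃ φ : ℕ → α, Set.InjOn φ (A : Set ℕ) ∧ A.image φ = B ∧ φ x = y := by
  classical
  let σ : A ≃ B := Finset.equivOfCardEq hc
  let ψ : ℕ → α := fun z => if h : z ∈ A then (σ ⟨z, h⟩ : α) else y
  have hψ : ∀ z (h : z ∈ A), ψ z = (σ ⟨z, h⟩ : α) := fun z h => dif_pos h
  have hinj : Set.InjOn ψ (A : Set ℕ) := by
    intro a ha b hb hab
    rw [hψ a ha, hψ b hb] at hab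
    have := σ.injective (Subtype.ext hab)
    exact congrArg Subtype.val this
  have him : A.image ψ = B := by
    ext z
    rw [mem_image]
    constructor
    · rintro ⟨a, ha, rfl⟩
      rw [hψ a ha]
      exact (σ ⟨a, ha⟩).2
    · intro hz
      refine ⟨(σ.symm ⟨z, hz⟩ : ℕ), (σ.symm ⟨z, hz⟩).2, ?_⟩
      rw [hψ _ (σ.symm ⟨z, hz⟩).2]
      simp
  have hy' := hy
  rw [← him] at hy'
  obtain ⟨u, hu, hu2⟩ := mem_image.1 hy'
  refine ⟨ψ ∘ Equiv.swap x u, ?_, ?_, ?_⟩
  · intro a ha b hb hab
    have hmaps : ∀ z ∈ A, Equiv.swap x u z ∈ A := by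
      intro z hz
      by_cases h1 : z = x
      · rw [h1, Equiv.swap_apply_left]; exact hu
      · by_cases h2 : z = u
        · rw [h2, Equiv.swap_apply_right]; exact hx
        · rw [Equiv.swap_apply_of_ne_of_ne h1 h2]; exact hz
    have := hinj (hmaps a ha) (hmaps b hb) hab
    exact (Equiv.swap x u).injective this
  · rw [image_comp_swap hx hu, him]
  · simp [hu2]

/-- The embedding theorem. -/
theorem copy_of_core {r m : ℕ} {e : ℕ → Finset ℕ} {G : Finset (Finset α)}
    (hT : TightTree r (m + 1) e) (hF : Free (m + 1) e) (hr : 1 ≤ r) (hm : 1 ≤ m)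
    (hu : ∀ E ∈ G, E.card = r)
    (hG : ∀ E ∈ G, (ridges r (m + 1) e).card ≤
      (E.filter (fun x => m ≤ deg G (E.erase x))).card)
    {f : Finset α} (hf : m + 1 ≤ deg G f) : Copy (m + 1) e G := by
  classical
  obtain ⟨v, hv, hnew, p, hp, hpe, hpc⟩ := hT.parent (i := m) (by omega) (by omega)
  obtain ⟨xp, hxp, hxm, hxe⟩ := adj_split hr (hT.1 p (by omega))
    (show (e p ∩ e m).card = r - 1 by rw [inter_comm]; exact hpc)
  have hpm : (e p).erase xp ⊆ e m := by rw [hxe]; exact inter_subset_right
  have hne : (nb G f).Nonempty := by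
    rw [← card_pos]
    exact lt_of_lt_of_le (by omega) hf
  obtain ⟨y, hy⟩ := hne
  rw [mem_nb] at hy
  have hfy : (insert y f).erase y = f := erase_insert hy.1
  obtain ⟨φ, hφ1, hφ2, hφ3⟩ := exists_bij (A := e p) (B := insert y f) (x := xp) (y := y)
    (by rw [hT.1 p (by omega), hu _ hy.2]) hxp (mem_insert_self _ _)
  have hVp : VS e {p} = e p := by simp [VS]
  have hres : ((e p).erase xp).image φ = f := by
    rw [image_erase_of_injOn hφ1 hxp, hφ2, hφ3, hfy]
  have hst : St r m e G p xp {p} φ := by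
    refine ⟨mem_singleton_self _, ?_, ?_, ?_, ?_, ?_, ?_, ?_, ?_⟩
    · intro i hi
      rw [mem_singleton.1 hi]; exact hp
    · rw [hVp]; exact hφ1
    · intro i hi
      rw [mem_singleton.1 hi, hφ2]; exact hy.2
    · intro i hi k hk hik
      rw [mem_singleton.1 hi, mem_singleton.1 hk] at hik
      exact absurd rfl hik
    · rw [hres]; exact hf
    · rw [hVp, hT.1 p (by omega), card_singleton]
    · intro x hx k hk hxk
      rw [hVp] at hx
      rw [mem_singleton.1 hk] at hxk
      exact absurd hx hxk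
    · have h1 : core e p xp {p} = (e p).erase xp := by
        ext z
        rw [mem_core, mem_erase]
        constructor
        · rintro ⟨h1, h2, -⟩; exact ⟨h2, h1⟩
        · rintro ⟨h1, h2⟩
          exact ⟨h2, h1, fun k hk => by rw [mem_singleton.1 hk]; exact h2⟩
      have h2 : 0 < (opened r e p xp {p}).card := by
        rw [card_pos]
        exact ⟨_, mem_opened.2 (Or.inl rfl)⟩
      rw [h1, card_erase_of_mem hxp, hT.1 p (by omega)]
      omega
  obtain ⟨φ', h⟩ := St.complete hT hF hr hxp hxm hpm hG (m - 1) {p} φ hst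
    (by rw [card_singleton]; omega)
  have hρV : (e p).erase xp ⊆ VS e (range m) :=
    fun z hz => mem_VS.2 ⟨p, h.hp, mem_of_mem_erase hz⟩
  have hρc : ((e p).erase xp).card = r - 1 := by
    rw [card_erase_of_mem hxp, hT.1 p (by omega)]
  have hdd : (VS e (range m)).card - ((e p).erase xp).card < deg G (((e p).erase xp).image φ') := by
    have h1 := h.cardV
    rw [card_range] at h1
    have h2 := h.res
    omega
  obtain ⟨w, hw1, hw2, hw3⟩ := exists_new hρV hdd
  have hvV : v ∉ VS e (range m) := by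
    intro hc
    obtain ⟨i, hi, hvi⟩ := mem_VS.1 hc
    exact hnew i (mem_range.1 hi) hvi
  have hem : e m = insert v ((e p).erase xp) := by
    rw [hxe, inter_comm, hpe, insert_erase hv]
  have hvρ : v ∉ (e p).erase xp := fun hc => hvV (hρV hc)
  refine ⟨Function.update φ' v w, ?_, ?_⟩
  · have hVall : ∀ x, (∃ i, i < m + 1 ∧ x ∈ e i) → x = v ∨ x ∈ VS e (range m) := by
      rintro x ⟨i, hi, hx⟩
      by_cases him : i = m
      · rw [him, hem, mem_insert] at hx
        rcases hx with hx | hx
        · exact Or.inl hx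
        · exact Or.inr (hρV hx)
      · exact Or.inr (mem_VS.2 ⟨i, mem_range.2 (by omega), hx⟩)
    have hne : ∀ c ∈ VS e (range m), Function.update φ' v w c = φ' c := by
      intro c hc
      apply Function.update_of_ne
      rintro rfl
      exact hvV hc
    intro a ha b hb hab
    rcases hVall a ha with rfl | ha <;> rcases hVall b hb with rfl | hb
    · rfl
    · rw [hne b hb, Function.update_self] at hab
      exact absurd (hab ▸ mem_image_of_mem φ' hb) hw3
    · rw [hne a ha, Function.update_self] at hab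
      exact absurd (hab ▸ mem_image_of_mem φ' ha) hw3
    · rw [hne a ha, hne b hb] at hab
      exact h.inj ha hb hab
  · intro i hi
    by_cases him : i = m
    · rw [him, hem, image_insert, Function.update_self, image_update_of_notMem hvρ]
      exact hw2
    · have hiS : i ∈ range m := mem_range.2 (by omega)
      rw [image_update_of_notMem (fun hc => hvV (mem_VS.2 ⟨i, hiS, hc⟩))]
      exact h.mem i hiS

omit [Fintype α] in
theorem Copy.mono {t : ℕ} {e : ℕ → Finset ℕ} {G G' : Finset (Finset α)} (h : G' ⊆ G)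
    (hc : Copy t e G') : Copy t e G := by
  obtain ⟨f, h1, h2⟩ := hc
  exact ⟨f, h1, fun i hi => h (h2 i hi)⟩

/-- Main theorem for a free tight tree with `t ≥ 3` edges. -/
theorem free_tree_bound {r t : ℕ} {e : ℕ → Finset ℕ} (ht : 3 ≤ t) (hr : 1 ≤ r)
    (hT : TightTree r t e) (hF : Free t e) (G : Finset (Finset α)) (hu : ∀ E ∈ G, E.card = r)
    (hno : ¬ Copy t e G) :
    min (((r : ℝ) - (ridges r t e).card + 1) / ((t : ℝ) - 2)) ((r : ℝ) / ((t : ℝ) - 1))
      * (G.card : ℝ) ≤ (G.shadow.card : ℝ) := by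
  obtain ⟨D, rfl⟩ : ∃ D, t = D + 2 := ⟨t - 2, by omega⟩
  have hD : 1 ≤ D := by omega
  have hDr : (1 : ℝ) ≤ D := by exact_mod_cast hD
  set K := (ridges r (D + 2) e).card with hK
  set c : ℝ := min ((r : ℝ) - K + 1) ((r : ℝ) * D / ((D : ℝ) + 1)) with hc
  have h1 := peel (α := α) r K D (fun G => ¬ Copy (D + 2) e G)
    (fun G G' h hn hc => hn (Copy.mono h hc))
    (by
      intro G hu hn hcore f
      by_contra hcon
      push Not at hcon
      exact hn (copy_of_core (m := D + 1) hT hF hr (by omega) hu hcore (f := f) (by omega)))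
    c (min_le_left _ _) (by
      have : c ≤ (r : ℝ) * D / ((D : ℝ) + 1) := min_le_right _ _
      calc c * ((D : ℝ) + 1) ≤ ((r : ℝ) * D / ((D : ℝ) + 1)) * ((D : ℝ) + 1) :=
            mul_le_mul_of_nonneg_right this (by positivity)
        _ = r * D := by field_simp)
    G hu hno
  have h2 : (pot D G : ℝ) ≤ (D : ℝ) * (G.shadow.card : ℝ) := by exact_mod_cast pot_le D G
  have h3 : min (((r : ℝ) - K + 1) / (((D + 2 : ℕ) : ℝ) - 2)) ((r : ℝ) / (((D + 2 : ℕ) : ℝ) - 1))
      = c / D := by
    have e1 : (((D + 2 : ℕ) : ℝ) - 2) = D := by push_cast; ring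
    have e2 : (((D + 2 : ℕ) : ℝ) - 1) = D + 1 := by push_cast; ring
    rw [e1, e2, hc, ← min_div_div_right (by positivity : (0 : ℝ) ≤ D)]
    congr 1
    field_simp
  rw [h3, div_mul_eq_mul_div, div_le_iff₀ (by positivity)]
  rw [mul_comm (G.shadow.card : ℝ) (D : ℝ)]
  exact h1.trans h2

end Pool.Agent.W689.Ka
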