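import Pool.Agent.W689.Ka.Main

/-!
The tight path with `t ≤ r + 1` edges is a free tight tree; corollaries.
-/

set_option autoImplicit false

open Finset

namespace Pool.Agent.W689.Ka

/-- the edges of the tight path: windows of `r` consecutive numbers -/
def win (r : ℕ) : ℕ → Finset ℕ := fun i => Finset.Ico i (i + r)

theorem mem_win {r i x : ℕ} : x ∈ win r i ↔ i ≤ x ∧ x < i + r := by simp [win]

theorem card_win {r i : ℕ} : (win r i).card = r := by simp [win]

theorem tightTree_win {r : ℕ} (hr : 1 ≤ r) (t : ℕ) : TightTree r t (win r) := by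
  refine ⟨fun i _ => card_win, ?_⟩
  intro i h0 _
  refine ⟨i + r - 1, ?_, ?_, i - 1, by omega, ?_⟩
  · rw [mem_win]; omega
  · intro j hj
    rw [mem_win]; omega
  · intro z hz
    rw [mem_sdiff, mem_win, mem_singleton] at hz
    rw [mem_win]; omega

/-- if a window minus a point is inside another window then the point is an end of the window and
the other window is the next one on the other side -/
theorem win_erase_subset {r i j x : ℕ} (hr : 2 ≤ r) (hx : x ∈ win r i) (hxj : x ∉ win r j)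
    (h : (win r i).erase x ⊆ win r j) : (x = i ∧ j = i + 1) ∨ (x + 1 = i + r ∧ i = j + 1) := by
  have key : ∀ y, i ≤ y → y < i + r → y ≠ x → j ≤ y ∧ y < j + r := by
    intro y h1 h2 h3
    have := h (mem_erase.2 ⟨h3, mem_win.2 ⟨h1, h2⟩⟩)
    exact mem_win.1 this
  rw [mem_win] at hx
  rw [mem_win] at hxj
  by_cases h1 : x = i
  · left
    refine ⟨h1, ?_⟩
    have h2 := key (i + 1) (by omega) (by omega) (by omega)
    have h3 := key (i + r - 1) (by omega) (by omega) (by omega)
    omega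
  · have h2 := key i le_rfl (by omega) (fun h => h1 h.symm)
    by_cases h3 : x = i + r - 1
    · right
      refine ⟨by omega, ?_⟩
      have h4 := key (i + r - 2) (by omega) (by omega) (by omega)
      omega
    · have h4 := key (i + r - 1) (by omega) (by omega) (fun h => h3 h.symm)
      omega

theorem free_win {r t : ℕ} (hr : 2 ≤ r) (ht : t ≤ r + 1) : Free t (win r) := by
  intro x i j k l hi hj hk hl h1 h2 h3 h4 h5 h6
  have h7 := win_erase_subset hr h1 h2 h3
  have h8 := win_erase_subset hr h4 h5 h6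
  omega

theorem shadow_card_le {n r : ℕ} (H : Finset (Finset (Fin n))) (hH : ∀ h ∈ H, h.card = r) :
    H.shadow.card ≤ n.choose (r - 1) := by
  have hs : H.shadow ⊆ (univ : Finset (Fin n)).powersetCard (r - 1) := by
    intro f hf
    rw [mem_shadow_iff] at hf
    obtain ⟨s, hs, a, ha, rfl⟩ := hf
    rw [mem_powersetCard]
    exact ⟨subset_univ _, by rw [card_erase_of_mem ha, hH s hs]⟩
  have := card_le_card hs
  rwa [card_powersetCard, card_univ, Fintype.card_fin] at this

/-- From the product form to the quotient form. -/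
theorem quot_form {r t g : ℕ} {N M : ℝ} (hr : 1 ≤ r) (ht : 3 ≤ t) (hg : g ≤ r) (hN : 0 ≤ N)
    (h : min (((r : ℝ) - g + 1) / ((t : ℝ) - 2)) ((r : ℝ) / ((t : ℝ) - 1)) * N ≤ M) :
    N ≤ max (((t : ℝ) - 1) / r) (((t : ℝ) - 2) / ((r : ℝ) - g + 1)) * M := by
  have hrr : (1 : ℝ) ≤ r := by exact_mod_cast hr
  have htr : (3 : ℝ) ≤ t := by exact_mod_cast ht
  have hgr : (g : ℝ) ≤ r := by exact_mod_cast hg
  set a : ℝ := ((r : ℝ) - g + 1) / ((t : ℝ) - 2) with ha
  set b : ℝ := (r : ℝ) / ((t : ℝ) - 1) with hb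
  have ha0 : 0 < a := by apply div_pos <;> linarith
  have hb0 : 0 < b := by apply div_pos <;> linarith
  have h1 : ((t : ℝ) - 2) / ((r : ℝ) - g + 1) = a⁻¹ := by rw [ha, inv_div]
  have h2 : ((t : ℝ) - 1) / r = b⁻¹ := by rw [hb, inv_div]
  rw [h1, h2]
  have hm : 0 < min a b := lt_min ha0 hb0
  have hM : 0 ≤ M := le_trans (mul_nonneg hm.le hN) h
  have h3 : N ≤ (min a b)⁻¹ * M := by
    rw [inv_mul_eq_div, le_div_iff₀ hm, mul_comm]
    exact h
  refine h3.trans (mul_le_mul_of_nonneg_right ?_ hM)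
  rcases le_total a b with hab | hab
  · rw [min_eq_left hab]; exact le_max_right _ _
  · rw [min_eq_right hab]; exact le_max_left _ _

/-- exact form -/
theorem exact_form {r t g : ℕ} {N M : ℝ} (hr : 1 ≤ r) (ht : 3 ≤ t)
    (hg : (g - 1) * (t - 1) ≤ r)
    (h : min (((r : ℝ) - g + 1) / ((t : ℝ) - 2)) ((r : ℝ) / ((t : ℝ) - 1)) * N ≤ M) :
    N ≤ ((t : ℝ) - 1) / r * M := by
  have hrr : (1 : ℝ) ≤ r := by exact_mod_cast hr
  have htr : (3 : ℝ) ≤ t := by exact_mod_cast ht
  have hg' : ((g : ℝ) - 1) * ((t : ℝ) - 1) ≤ r := by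
    rcases Nat.eq_zero_or_pos g with h0 | h0
    · subst h0
      push_cast
      nlinarith
    · have : (((g - 1) * (t - 1) : ℕ) : ℝ) ≤ (r : ℝ) := by exact_mod_cast hg
      rw [Nat.cast_mul, Nat.cast_sub h0, Nat.cast_sub (by omega)] at this
      simpa using this
  have hmin : min (((r : ℝ) - g + 1) / ((t : ℝ) - 2)) ((r : ℝ) / ((t : ℝ) - 1))
      = (r : ℝ) / ((t : ℝ) - 1) := by
    apply min_eq_right
    rw [div_le_div_iff₀ (by linarith) (by linarith)]
    nlinarith
  rw [hmin] at h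
  have h1 : (r : ℝ) / ((t : ℝ) - 1) > 0 := by apply div_pos <;> linarith
  have h2 : N * ((r : ℝ) / ((t : ℝ) - 1)) ≤ M := by rw [mul_comm]; exact h
  rw [← le_div_iff₀ h1] at h2
  refine h2.trans (le_of_eq ?_)
  rw [div_div_eq_mul_div, div_mul_eq_mul_div, mul_comm]

end Pool.Agent.W689.Ka
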