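import Mathlib

/-!
The potential function of the peeling argument: for a finite uniform family `G` and a number `D`,
`pot D G = ∑ f, min D (deg G f)`, where `deg G f` is the number of `v ∉ f` with `insert v f ∈ G`.
-/

set_option autoImplicit false

open Finset

namespace Pool.Agent.W689.Ka

variable {α : Type*} [DecidableEq α] [Fintype α]

/-- The vertices extending `f` to a member of `G`. -/
def nb (G : Finset (Finset α)) (f : Finset α) : Finset α :=
  univ.filter (fun v => v ∉ f ∧ insert v f ∈ G)

theorem mem_nb {G : Finset (Finset α)} {f : Finset α} {v : α} :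
    v ∈ nb G f ↔ v ∉ f ∧ insert v f ∈ G := by simp [nb]

/-- The degree of `f` in `G`. -/
def deg (G : Finset (Finset α)) (f : Finset α) : ℕ := (nb G f).card

/-- The potential. -/
def pot (D : ℕ) (G : Finset (Finset α)) : ℕ := ∑ f : Finset α, min D (deg G f)

theorem sum_deg (G : Finset (Finset α)) : ∑ f : Finset α, deg G f = ∑ e ∈ G, e.card := by
  classical
  have h1 : ∑ f : Finset α, deg G f
      = ((univ : Finset (Finset α)).sigma (fun f => nb G f)).card := by
    rw [Finset.card_sigma]; rfl
  have h2 : ∑ e ∈ G, e.card = (G.sigma (fun e => e)).card := by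
    rw [Finset.card_sigma]
  rw [h1, h2]
  refine Finset.card_bij' (fun p _ => (⟨insert p.2 p.1, p.2⟩ : Σ _ : Finset α, α))
    (fun p _ => (⟨p.1.erase p.2, p.2⟩ : Σ _ : Finset α, α)) ?_ ?_ ?_ ?_
  · rintro ⟨f, v⟩ h
    simp only [mem_sigma, mem_univ, true_and, mem_nb] at h
    simp only [mem_sigma]
    exact ⟨h.2, mem_insert_self _ _⟩
  · rintro ⟨e, x⟩ h
    simp only [mem_sigma] at h
    simp only [mem_sigma, mem_univ, true_and, mem_nb]
    refine ⟨notMem_erase _ _, ?_⟩
    rw [insert_erase h.2]
    exact h.1
  · rintro ⟨f, v⟩ h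
    simp only [mem_sigma, mem_univ, true_and, mem_nb] at h
    simp only [Sigma.mk.injEq, heq_eq_eq, and_true]
    exact erase_insert h.1
  · rintro ⟨e, x⟩ h
    simp only [mem_sigma] at h
    simp only [Sigma.mk.injEq, heq_eq_eq, and_true]
    exact insert_erase h.2

theorem deg_mono {G G' : Finset (Finset α)} (h : G' ⊆ G) (f : Finset α) : deg G' f ≤ deg G f := by
  unfold deg
  refine card_le_card ?_
  intro v hv
  rw [mem_nb] at hv ⊢
  exact ⟨hv.1, h hv.2⟩

theorem deg_erase_lt {G : Finset (Finset α)} {e : Finset α} (he : e ∈ G) {x : α} (hx : x ∈ e) :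
    deg (G.erase e) (e.erase x) < deg G (e.erase x) := by
  unfold deg
  refine card_lt_card ?_
  rw [Finset.ssubset_iff_of_subset]
  · refine ⟨x, ?_, ?_⟩
    · rw [mem_nb]
      refine ⟨notMem_erase _ _, ?_⟩
      rw [insert_erase hx]; exact he
    · rw [mem_nb]
      rintro ⟨-, h⟩
      rw [insert_erase hx] at h
      exact notMem_erase _ _ h
  · intro v hv
    rw [mem_nb] at hv ⊢
    exact ⟨hv.1, mem_of_mem_erase hv.2⟩

/-- Removing `e` decreases the potential by at least the number of its facets of degree `≤ D`. -/
theorem pot_erase (D : ℕ) {G : Finset (Finset α)} {e : Finset α} (he : e ∈ G) :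
    pot D (G.erase e) + (e.filter (fun x => deg G (e.erase x) ≤ D)).card ≤ pot D G := by
  classical
  set S := e.filter (fun x => deg G (e.erase x) ≤ D) with hS
  have hinj : Set.InjOn (fun x => e.erase x) (S : Set α) := by
    intro x hx y hy hxy
    have hx' : x ∈ e := (mem_filter.1 (mem_coe.1 hx)).1
    have hy' : y ∈ e := (mem_filter.1 (mem_coe.1 hy)).1
    by_contra hne
    have : x ∈ e.erase y := mem_erase.2 ⟨hne, hx'⟩
    have h2 : e.erase x = e.erase y := hxy
    rw [← h2] at this
    exact notMem_erase _ _ this
  have hcard : (S.image (fun x => e.erase x)).card = S.card := card_image_of_injOn hinj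
  have hsum : (S.image (fun x => e.erase x)).card
      = ∑ f : Finset α, (if f ∈ S.image (fun x => e.erase x) then 1 else 0) := by
    rw [Finset.sum_ite_mem, Finset.univ_inter, Finset.sum_const, smul_eq_mul, mul_one]
  rw [← hcard, hsum]
  unfold pot
  rw [← Finset.sum_add_distrib]
  refine Finset.sum_le_sum ?_
  intro f _
  by_cases hf : f ∈ S.image (fun x => e.erase x)
  · rw [if_pos hf]
    obtain ⟨x, hx, rfl⟩ := mem_image.1 hf
    obtain ⟨hxe, hdeg⟩ := mem_filter.1 hx
    have hlt := deg_erase_lt he hxe
    rw [min_eq_right hdeg]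
    have := min_le_right D (deg (G.erase e) (e.erase x))
    omega
  · rw [if_neg hf, add_zero]
    exact min_le_min_left _ (deg_mono (erase_subset _ _) f)

/-- The potential is at most `D` times the size of the shadow. -/
theorem pot_le (D : ℕ) (G : Finset (Finset α)) : pot D G ≤ D * (G.shadow).card := by
  classical
  unfold pot
  have : ∀ f : Finset α, min D (deg G f) ≤ if f ∈ G.shadow then D else 0 := by
    intro f
    by_cases hf : f ∈ G.shadow
    · rw [if_pos hf]; exact min_le_left _ _
    · rw [if_neg hf]
      have : deg G f = 0 := by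
        unfold deg
        rw [card_eq_zero, eq_empty_iff_forall_notMem]
        intro v hv
        rw [mem_nb] at hv
        apply hf
        rw [mem_shadow_iff_insert_mem]
        exact ⟨v, hv.1, hv.2⟩
      rw [this]; simp
  refine (Finset.sum_le_sum (fun f _ => this f)).trans ?_
  rw [Finset.sum_ite_mem, Finset.univ_inter, Finset.sum_const, smul_eq_mul, mul_comm]

/-- The peeling theorem. `NC` is a hereditary property of families (no copy of the tree); if in
every family with `NC` in which each member has at least `K` facets of degree `≥ D + 1` all degrees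
are at most `D + 1`, then the potential is at least `c` times the number of members. -/
theorem peel (r K D : ℕ) (NC : Finset (Finset α) → Prop)
    (hNC : ∀ G G' : Finset (Finset α), G' ⊆ G → NC G → NC G')
    (hcore : ∀ G : Finset (Finset α), (∀ e ∈ G, e.card = r) → NC G →
      (∀ e ∈ G, K ≤ (e.filter (fun x => D + 1 ≤ deg G (e.erase x))).card) →
      ∀ f, deg G f ≤ D + 1)
    (c : ℝ) (hc1 : c ≤ (r : ℝ) - K + 1) (hc2 : c * ((D : ℝ) + 1) ≤ r * D) :
    ∀ G : Finset (Finset α), (∀ e ∈ G, e.card = r) → NC G → c * (G.card : ℝ) ≤ (pot D G : ℝ) := by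
  intro G
  induction G using Finset.strongInduction with
  | H G ih =>
    intro hr hG
    by_cases hpe : ∃ e ∈ G, (e.filter (fun x => D + 1 ≤ deg G (e.erase x))).card < K
    · obtain ⟨e, he, hlt⟩ := hpe
      have hss : G.erase e ⊂ G := erase_ssubset he
      have h1 := ih (G.erase e) hss (fun e' he' => hr e' (mem_of_mem_erase he'))
        (hNC G _ (erase_subset _ _) hG)
      have h2 := pot_erase D he
      have h3 : (e.filter (fun x => deg G (e.erase x) ≤ D)).card
          + (e.filter (fun x => D + 1 ≤ deg G (e.erase x))).card = r := by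
        rw [← hr e he, ← Finset.card_filter_add_card_filter_not (s := e)
          (fun x => deg G (e.erase x) ≤ D)]
        congr 2
        apply Finset.filter_congr
        intro x _
        omega
      have h4 : r + 1 ≤ (e.filter (fun x => deg G (e.erase x) ≤ D)).card + K := by omega
      have h4' : (r : ℝ) + 1 ≤ ((e.filter (fun x => deg G (e.erase x) ≤ D)).card : ℝ) + K := by
        exact_mod_cast h4
      have h2' : (pot D (G.erase e) : ℝ) + ((e.filter (fun x => deg G (e.erase x) ≤ D)).card : ℝ)
          ≤ (pot D G : ℝ) := by exact_mod_cast h2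
      have h5 : ((G.erase e).card : ℝ) = (G.card : ℝ) - 1 := by
        rw [card_erase_of_mem he, Nat.cast_sub (card_pos.2 ⟨e, he⟩)]
        simp
      rw [h5] at h1
      nlinarith
    · push Not at hpe
      have hd := hcore G hr hG hpe
      have h1 : ∑ f : Finset α, deg G f = r * G.card := by
        rw [sum_deg, Finset.sum_congr rfl hr, Finset.sum_const, smul_eq_mul, mul_comm]
      have h2 : D * ∑ f : Finset α, deg G f ≤ (D + 1) * pot D G := by
        unfold pot
        rw [Finset.mul_sum, Finset.mul_sum]
        refine Finset.sum_le_sum ?_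
        intro f _
        have := hd f
        rcases Nat.lt_or_ge (deg G f) (D + 1) with h | h
        · rw [min_eq_right (by omega)]
          exact Nat.mul_le_mul_right _ (by omega)
        · have h' : deg G f = D + 1 := by omega
          rw [h', min_eq_left (by omega), mul_comm]
      rw [h1] at h2
      have h2' : (D : ℝ) * (r * G.card) ≤ (D + 1) * (pot D G : ℝ) := by exact_mod_cast h2
      have h3 : c * (G.card : ℝ) * ((D : ℝ) + 1) ≤ (D + 1) * (pot D G : ℝ) := by
        calc c * (G.card : ℝ) * ((D : ℝ) + 1) = (c * ((D : ℝ) + 1)) * G.card := by ring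
          _ ≤ (r * D) * G.card := by
              apply mul_le_mul_of_nonneg_right hc2 (Nat.cast_nonneg _)
          _ = (D : ℝ) * (r * G.card) := by ring
          _ ≤ _ := h2'
      have hD : (0 : ℝ) < (D : ℝ) + 1 := by positivity
      have h4 : ((D : ℝ) + 1) * (c * G.card) ≤ (D + 1) * (pot D G : ℝ) := by
        rw [mul_comm]; exact h3
      exact le_of_mul_le_mul_left h4 hD

end Pool.Agent.W689.Ka
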